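import Pool.Agent.MP_c59ecb_co.al.Spec

/-! The area of the part of a tilted square in a quadrant. -/

set_option autoImplicit false

namespace Pool.Agent.MP_c59ecb_co.al

open MeasureTheory Set

theorem ara_cont : Continuous pos := continuous_id.max continuous_const

theorem ara_zero (q : ℝ) : ∫ t in (0 : ℝ)..q, pos t = pos q ^ 2 / 2 := by
  rcases le_total 0 q with h | h
  · rw [intervalIntegral.integral_congr (g := fun t => t) fun t ht => by
      rw [uIcc_of_le h] at ht
      exact max_eq_left ht.1]
    simp [pos, max_eq_left h]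
  · rw [intervalIntegral.integral_congr (g := fun _ => 0) fun t ht => by
      rw [uIcc_of_ge h] at ht
      exact max_eq_right ht.2]
    simp [pos, max_eq_right h]

theorem ara_int (k m u v : ℝ) : 2 * (m * ∫ t in u..v, pos (k + m * t)) =
    pos (k + m * v) ^ 2 - pos (k + m * u) ^ 2 := by
  rw [intervalIntegral.mul_integral_comp_add_mul,
    ← intervalIntegral.integral_interval_sub_left (a := 0) (ara_cont.intervalIntegrable _ _)
      (ara_cont.intervalIntegrable _ _), ara_zero, ara_zero]
  ring

theorem ara_split {f g k : ℝ → ℝ} (hf : Continuous f) (A C T : ℝ) (hA : A ≤ T) (hC : C ≤ T)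
    (h1 : ∀ u, u ≤ C → f u = g u) (h2 : ∀ u, C ≤ u → f u = k u) :
    ∫ t in A..T, f t = (∫ t in (min A C)..C, g t) + ∫ t in (max A C)..T, k t := by
  have e1 : ∫ t in (min A C)..C, g t = ∫ t in (min A C)..C, f t :=
    intervalIntegral.integral_congr fun t ht => by
      rw [uIcc_of_le (min_le_right _ _)] at ht
      exact (h1 t ht.2).symm
  have e2 : ∫ t in (max A C)..T, k t = ∫ t in (max A C)..T, f t :=
    intervalIntegral.integral_congr fun t ht => by
      rw [uIcc_of_le (max_le hA hC)] at ht
      exact (h2 t ((le_max_right _ _).trans ht.1)).symm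
  rw [e1, e2]
  rcases le_total A C with h | h
  · rw [min_eq_left h, max_eq_right h, intervalIntegral.integral_add_adjacent_intervals
      (hf.intervalIntegrable _ _) (hf.intervalIntegrable _ _)]
  · rw [min_eq_right h, max_eq_left h, intervalIntegral.integral_same, zero_add]

theorem ara_mul {c z w : ℝ} (hc : 0 < c) (h : w = c * z) : pos w ^ 2 = c ^ 2 * pos z ^ 2 := by
  rw [h, ← mul_pow, pos, pos, mul_max_of_nonneg _ _ hc.le, mul_zero]

theorem ara_max (z B : ℝ) : max z B = pos (z - B) + B := by
  rw [pos, ← max_add_add_right, sub_add_cancel, zero_add]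

theorem ara_mem {x y C S p r t w : ℝ} (hC : 0 < C) (hS : 0 < S) (hp : p * C = S)
    (hr : r * S = C) : (t, w) ∈ Sq x y C S ↔
      max (C - r * (t + ((C + S) / 2 - x))) (p * (t + ((C + S) / 2 - x)) - p * S) <
          w + ((C + S) / 2 - y) ∧
        w + ((C + S) / 2 - y) < min (C + p * (t + ((C + S) / 2 - x)))
          (C + S + r * C - r * (t + ((C + S) / 2 - x))) := by
  obtain ⟨u, hu⟩ : ∃ u, u = t + ((C + S) / 2 - x) := ⟨_, rfl⟩
  obtain ⟨v, hv⟩ : ∃ v, v = w + ((C + S) / 2 - y) := ⟨_, rfl⟩
  have e1 : t - x = u - (C + S) / 2 := by linarith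
  have e2 : w - y = v - (C + S) / 2 := by linarith
  rw [← hu, ← hv, max_lt_iff, lt_min_iff]
  simp only [Sq, mem_ofPred_eq, abs_lt, e1, e2]
  have a1 : S * (C - r * u) = S * C - C * u := by rw [mul_sub, ← mul_assoc, mul_comm S r, hr]
  have a2 : C * (p * u - p * S) = S * u - S * S := by
    rw [mul_sub, ← mul_assoc, ← mul_assoc, mul_comm C p, hp]
  have a3 : C * (C + p * u) = C * C + S * u := by rw [mul_add, ← mul_assoc, mul_comm C p, hp]
  have a4 : S * (C + S + r * C - r * u) = S * (C + S) + C * C - C * u := by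
    rw [mul_sub, mul_add S (C + S), ← mul_assoc, ← mul_assoc, mul_comm S r, hr]
  rw [← mul_lt_mul_iff_right₀ hS (b := C - r * u), ← mul_lt_mul_iff_right₀ hC (b := p * u - p * S),
    ← mul_lt_mul_iff_right₀ hC (b := v), ← mul_lt_mul_iff_right₀ hS (b := v), a1, a2, a3, a4]
  constructor
  · rintro ⟨⟨h1, h2⟩, h3, h4⟩
    exact ⟨⟨by linarith, by linarith⟩, by linarith, by linarith⟩
  · rintro ⟨⟨h1, h2⟩, h3, h4⟩
    exact ⟨⟨by linarith, by linarith⟩, by linarith, by linarith⟩

theorem areaS : AreaS := by
  intro x y C S a b hC hS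
  obtain ⟨p, hp⟩ : ∃ p, p * C = S := ⟨S / C, div_mul_cancel₀ _ hC.ne'⟩
  obtain ⟨r, hr⟩ : ∃ r, r * S = C := ⟨C / S, div_mul_cancel₀ _ hS.ne'⟩
  have p0 : 0 < p := (mul_pos_iff_of_pos_right hC).1 (by rw [hp]; exact hS)
  have r0 : 0 < r := (mul_pos_iff_of_pos_right hS).1 (by rw [hr]; exact hC)
  obtain ⟨d, hd⟩ : ∃ d, d = (C + S) / 2 - x := ⟨_, rfl⟩
  obtain ⟨e, he⟩ : ∃ e, e = (C + S) / 2 - y := ⟨_, rfl⟩
  obtain ⟨α, hα⟩ : ∃ α, α = pos (a - x + (C + S) / 2) := ⟨_, rfl⟩
  obtain ⟨B, hB⟩ : ∃ B, B = pos (b - y + (C + S) / 2) := ⟨_, rfl⟩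
  obtain ⟨A, hA⟩ : ∃ A, A = min α (C + S) := ⟨_, rfl⟩
  have α0 : 0 ≤ α := hα ▸ le_max_right _ _
  have B0 : 0 ≤ B := hB ▸ le_max_right _ _
  have A0 : 0 ≤ A := hA ▸ le_min α0 (by positivity)
  have A1 : A ≤ C + S := hA ▸ min_le_right _ _
  let lo : ℝ → ℝ := fun u => max (C - r * u) (p * u - p * S)
  let hi : ℝ → ℝ := fun u => min (C + p * u) (C + S + r * C - r * u)
  have clo : Continuous lo := by fun_prop
  have chi : Continuous hi := by fun_prop
  have hset : Sq x y C S ∩ Ioi a ×ˢ Ioi b = regionBetween (fun t => max (lo (t + d)) B - e)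
      (fun t => max (hi (t + d)) B - e) (Ioo (A - d) (C + S - d)) := by
    ext ⟨t, w⟩
    simp only [mem_inter_iff, mem_prod, mem_Ioi, regionBetween, mem_ofPred_eq, mem_Ioo]
    constructor
    · rintro ⟨h1, h2, h3⟩
      obtain ⟨⟨h4, h5⟩, ⟨h6, -⟩, -⟩ := sq_ch hC hS h1 rfl rfl
      rw [ara_mem hC hS hp hr, ← hd, ← he] at h1
      have h7 : α < t + d := hα ▸ max_lt (by linarith) (by linarith)
      have h8 : B < w + e := hB ▸ max_lt (by linarith) (by linarith)
      have h9 : A ≤ α := hA ▸ min_le_left _ _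
      have h10 : max (lo (t + d)) B < w + e := max_lt h1.1 h8
      have h11 : w + e < max (hi (t + d)) B := lt_max_of_lt_left h1.2
      exact ⟨⟨by linarith, by linarith⟩, by linarith, by linarith⟩
    · rintro ⟨⟨h1, h2⟩, h3, h4⟩
      have h5 : max (lo (t + d)) B < w + e := by linarith
      have h6 : w + e < max (hi (t + d)) B := by linarith
      obtain ⟨h7, h8⟩ := max_lt_iff.1 h5
      have h9 : w + e < hi (t + d) := (lt_max_iff.1 h6).resolve_right (not_lt.2 h8.le)
      have h10 : min α (C + S) < t + d := by linarith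
      have h11 : α < t + d := (min_lt_iff.1 h10).resolve_right (by linarith)
      have h12 : a - x + (C + S) / 2 ≤ α := hα ▸ le_max_left _ _
      have h13 : b - y + (C + S) / 2 ≤ B := hB ▸ le_max_left _ _
      refine ⟨?_, by linarith, by linarith⟩
      rw [ara_mem hC hS hp hr, ← hd, ← he]
      exact ⟨h7, h9⟩
  have hle : ∀ u, 0 ≤ u → u ≤ C + S → lo u ≤ hi u := by
    intro u u0 u1
    have h1 := mul_nonneg p0.le u0
    have h2 := mul_nonneg r0.le u0
    have h3 := mul_pos p0 hS
    have h4 := mul_pos r0 hC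
    have h5 := mul_le_mul_of_nonneg_left u1 p0.le
    have h6 := mul_le_mul_of_nonneg_left u1 r0.le
    rw [mul_add] at h5 h6
    exact max_le (le_min (by linarith) (by linarith)) (le_min (by linarith) (by linarith))
  have c1 : Continuous fun t => max (lo (t + d)) B - e := by fun_prop
  have c2 : Continuous fun t => max (hi (t + d)) B - e := by fun_prop
  have hfg : ∀ t ∈ Ioo (A - d) (C + S - d),
      max (lo (t + d)) B - e ≤ max (hi (t + d)) B - e := fun t ht =>
    sub_le_sub_right (max_le_max (hle _ (by linarith [ht.1]) (by linarith [ht.2])) le_rfl) _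
  have c3 : Continuous fun u => pos (hi u - B) := ara_cont.comp (by fun_prop)
  have c4 : Continuous fun u => pos (lo u - B) := ara_cont.comp (by fun_prop)
  have har : ar (Sq x y C S ∩ Ioi a ×ˢ Ioi b) =
      (∫ u in A..(C + S), pos (hi u - B)) - ∫ u in A..(C + S), pos (lo u - B) := by
    rw [hset, ar, Measure.real, Measure.volume_eq_prod, volume_regionBetween_eq_integral
      (c1.integrableOn_Icc.mono_set Ioo_subset_Icc_self)
      (c2.integrableOn_Icc.mono_set Ioo_subset_Icc_self) measurableSet_Ioo hfg,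
      ENNReal.toReal_ofReal (setIntegral_nonneg measurableSet_Ioo fun t ht => by
        rw [Pi.sub_apply]; exact sub_nonneg.2 (hfg t ht)), ← integral_Ioc_eq_integral_Ioo,
      ← intervalIntegral.integral_of_le (by linarith),
      ← intervalIntegral.integral_sub (c3.intervalIntegrable _ _) (c4.intervalIntegrable _ _)]
    have := intervalIntegral.integral_comp_add_right (a := A - d) (b := C + S - d)
      (fun u => pos (hi u - B) - pos (lo u - B)) d
    rw [sub_add_cancel, sub_add_cancel] at this
    rw [← this]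
    refine intervalIntegral.integral_congr fun t _ => ?_
    simp only [Pi.sub_apply, ara_max _ B]
    ring
  have s1 := ara_split c3 A C (C + S) A1 (by linarith)
    (g := fun u => pos (C - B + p * u)) (k := fun u => pos (C + S + r * C - B + -r * u))
    (fun u hu => by
      have h5 := mul_le_mul_of_nonneg_left hu p0.le
      have h6 := mul_le_mul_of_nonneg_left hu r0.le
      simp only [hi]
      rw [min_eq_left (by linarith)]
      congr 1
      ring)
    (fun u hu => by
      have h5 := mul_le_mul_of_nonneg_left hu p0.le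
      have h6 := mul_le_mul_of_nonneg_left hu r0.le
      simp only [hi]
      rw [min_eq_right (by linarith)]
      congr 1
      ring)
  have s2 := ara_split c4 A S (C + S) A1 (by linarith)
    (g := fun u => pos (C - B + -r * u)) (k := fun u => pos (-(p * S) - B + p * u))
    (fun u hu => by
      have h5 := mul_le_mul_of_nonneg_left hu p0.le
      have h6 := mul_le_mul_of_nonneg_left hu r0.le
      simp only [lo]
      rw [max_eq_left (by linarith)]
      congr 1
      ring)
    (fun u hu => by
      have h5 := mul_le_mul_of_nonneg_left hu p0.le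
      have h6 := mul_le_mul_of_nonneg_left hu r0.le
      simp only [lo]
      rw [max_eq_right (by linarith)]
      congr 1
      ring)
  have i1 := ara_int (C - B) p (min A C) C
  have i2 := ara_int (C + S + r * C - B) (-r) (max A C) (C + S)
  have i3 := ara_int (C - B) (-r) (min A S) S
  have i4 := ara_int (-(p * S) - B) p (max A S) (C + S)
  have m1 : min A C = min α C := by rw [hA, min_assoc, min_eq_right (by linarith : C ≤ C + S)]
  have m2 : min A S = min α S := by rw [hA, min_assoc, min_eq_right (by linarith : S ≤ C + S)]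
  rw [show C - B + p * C = C + S - B by linarith] at i1
  rw [show C + S + r * C - B + -r * (C + S) = S - B by linarith] at i2
  rw [show C - B + -r * S = -B by linarith, show pos (-B) = 0 from max_eq_right (by linarith)]
    at i3
  rw [show -(p * S) - B + p * (C + S) = S - B by linarith] at i4
  have t1 : pos (C * C + min α C * S - C * B) ^ 2 = C ^ 2 * pos (C - B + p * min A C) ^ 2 :=
    ara_mul hC (by rw [m1, ← hp]; ring)
  have t2 : pos (S * (C + S) - (S * B + pos (A - C) * C)) ^ 2 =
      S ^ 2 * pos (C + S + r * C - B + -r * max A C) ^ 2 :=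
    ara_mul hS (by rw [ara_max A C]; linear_combination pos (A - C) * hr)
  have t3 : pos (S * C - (S * B + min α S * C)) ^ 2 = S ^ 2 * pos (C - B + -r * min A S) ^ 2 :=
    ara_mul hS (by rw [m2]; linear_combination min α S * hr)
  have t4 : pos (pos (A - S) * S - C * B) ^ 2 = C ^ 2 * pos (-(p * S) - B + p * max A S) ^ 2 :=
    ara_mul hC (by rw [ara_max A S]; linear_combination (-pos (A - S)) * hp)
  rw [har, s1, s2, Pn, ← hα, ← hB, ← hA, t1, t2, t3, t4]
  generalize (∫ t in (min A C)..C, pos (C - B + p * t)) = I1 at *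
  generalize (∫ t in (max A C)..(C + S), pos (C + S + r * C - B + -r * t)) = I2 at *
  generalize (∫ t in (min A S)..S, pos (C - B + -r * t)) = I3 at *
  generalize (∫ t in (max A S)..(C + S), pos (-(p * S) - B + p * t)) = I4 at *
  linear_combination C ^ 2 * i1 - S ^ 2 * i2 + S ^ 2 * i3 - C ^ 2 * i4
    - 2 * C * (I1 - I4) * hp - 2 * S * (I2 - I3) * hr

end Pool.Agent.MP_c59ecb_co.al
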