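import Pool.Agent.MP_c59ecb_co.al.Spec

/-! The room near the corner, measured with strips, half planes and a smaller set. -/

set_option autoImplicit false

namespace Pool.Agent.MP_c59ecb_co.al

open MeasureTheory Set

/-- The positions of a number relative to the thresholds. -/
theorem bx_pos (u a p q : ℝ) (ha : a ≤ 0) (hp : p ≤ 7 / 25) (hq : 17 / 20 ≤ q) :
    (0 < u ∧ 7 / 25 < u ∧ ¬u ≤ 17 / 20 ∧ a < u ∧ p < u ∧ q < u ∧ ¬u ≤ q) ∨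
    (0 < u ∧ 7 / 25 < u ∧ ¬u ≤ 17 / 20 ∧ a < u ∧ p < u ∧ ¬q < u ∧ u ≤ q) ∨
    (0 < u ∧ 7 / 25 < u ∧ u ≤ 17 / 20 ∧ a < u ∧ p < u ∧ ¬q < u ∧ u ≤ q) ∨
    (0 < u ∧ ¬7 / 25 < u ∧ u ≤ 17 / 20 ∧ a < u ∧ p < u ∧ ¬q < u ∧ u ≤ q) ∨
    (0 < u ∧ ¬7 / 25 < u ∧ u ≤ 17 / 20 ∧ a < u ∧ ¬p < u ∧ ¬q < u ∧ u ≤ q) ∨
    (¬0 < u ∧ ¬7 / 25 < u ∧ u ≤ 17 / 20 ∧ a < u ∧ p < u ∧ ¬q < u ∧ u ≤ q) ∨
    (¬0 < u ∧ ¬7 / 25 < u ∧ u ≤ 17 / 20 ∧ a < u ∧ ¬p < u ∧ ¬q < u ∧ u ≤ q) ∨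
    (¬0 < u ∧ ¬7 / 25 < u ∧ u ≤ 17 / 20 ∧ ¬a < u ∧ p < u ∧ ¬q < u ∧ u ≤ q) ∨
    (¬0 < u ∧ ¬7 / 25 < u ∧ u ≤ 17 / 20 ∧ ¬a < u ∧ ¬p < u ∧ ¬q < u ∧ u ≤ q) := by
  have h1 : u ≤ 17 / 20 → u ≤ q := fun h => by linarith
  have h3 : 7 / 25 < u → 0 < u := fun h => by linarith
  have h4 : 0 < u → a < u := fun h => by linarith
  have h5 : 7 / 25 < u → p < u := fun h => by linarith
  by_cases c1 : 7 / 25 < u
  · by_cases c2 : u ≤ 17 / 20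
    · exact .inr (.inr (.inl ⟨h3 c1, c1, c2, h4 (h3 c1), h5 c1, not_lt.2 (h1 c2), h1 c2⟩))
    · by_cases c3 : u ≤ q
      · exact .inr (.inl ⟨h3 c1, c1, c2, h4 (h3 c1), h5 c1, not_lt.2 c3, c3⟩)
      · exact .inl ⟨h3 c1, c1, c2, h4 (h3 c1), h5 c1, not_le.1 c3, c3⟩
  · have c2 : u ≤ 17 / 20 := by linarith [not_lt.1 c1]
    have c3 := h1 c2
    have c4 := not_lt.2 c3
    refine .inr (.inr (.inr ?_))
    by_cases c0 : 0 < u
    · by_cases c5 : p < u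
      · exact .inl ⟨c0, c1, c2, h4 c0, c5, c4, c3⟩
      · exact .inr (.inl ⟨c0, c1, c2, h4 c0, c5, c4, c3⟩)
    · refine .inr (.inr ?_)
      by_cases c6 : a < u <;> by_cases c5 : p < u
      · exact .inl ⟨c0, c1, c2, c6, c5, c4, c3⟩
      · exact .inr (.inl ⟨c0, c1, c2, c6, c5, c4, c3⟩)
      · exact .inr (.inr (.inl ⟨c0, c1, c2, c6, c5, c4, c3⟩))
      · exact .inr (.inr (.inr ⟨c0, c1, c2, c6, c5, c4, c3⟩))

theorem bx_pos' (u : ℝ) :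
    (0 < u ∧ ¬u ≤ 0 ∧ (7 / 25 < u ∧ u ≤ 17 / 20)) ∨
    (0 < u ∧ ¬u ≤ 0 ∧ ¬(7 / 25 < u ∧ u ≤ 17 / 20)) ∨
    (¬0 < u ∧ u ≤ 0 ∧ ¬(7 / 25 < u ∧ u ≤ 17 / 20)) := by
  by_cases c0 : 0 < u
  · by_cases c1 : 7 / 25 < u ∧ u ≤ 17 / 20
    · exact .inl ⟨c0, not_le.2 c0, c1⟩
    · exact .inr (.inl ⟨c0, not_le.2 c0, c1⟩)
  · exact .inr (.inr ⟨c0, not_lt.1 c0, fun h => c0 (by linarith [h.1])⟩)

theorem bx_st : MeasurableSet St := measurableSet_Ioc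

theorem bx_two (E : Set (ℝ × ℝ)) (hE : MeasurableSet E) (hf : volume E ≠ ⊤) :
    11 / 25 * ar (E ∩ St ×ˢ univ) + 11 / 25 * ar (E ∩ univ ×ˢ St) + ar (E ∩ Iic 0 ×ˢ univ) / 2 +
      ar (E ∩ univ ×ˢ Iic 0) / 2 ≤ Wt E := by
  have h := lin ![1, 11 / 25, 11 / 25, -(11 / 25), -(11 / 25), -(1 / 2), -(1 / 2)]
    ![E \ Ioi 0 ×ˢ Ioi 0, E ∩ St ×ˢ Ioi 0, E ∩ Ioi 0 ×ˢ St, E ∩ St ×ˢ univ, E ∩ univ ×ˢ St,
      E ∩ Iic 0 ×ˢ univ, E ∩ univ ×ˢ Iic 0] ?_ ?_ ?_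
  · simp only [Fin.sum_univ_succ, Matrix.cons_val_zero, Matrix.cons_val_succ,
      Finset.univ_eq_empty, Finset.sum_empty] at h
    unfold Wt
    linarith
  · simp only [Fin.forall_fin_succ, Matrix.cons_val_zero, Matrix.cons_val_succ,
      IsEmpty.forall_iff, and_true]
    exact ⟨hE.diff (measurableSet_Ioi.prod measurableSet_Ioi),
      hE.inter (bx_st.prod measurableSet_Ioi), hE.inter (measurableSet_Ioi.prod bx_st),
      hE.inter (bx_st.prod .univ), hE.inter (MeasurableSet.univ.prod bx_st),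
      hE.inter (measurableSet_Iic.prod .univ), hE.inter (MeasurableSet.univ.prod measurableSet_Iic)⟩
  · have g : ∀ F, F ⊆ E → volume F ≠ ⊤ := fun F h => ne_top_of_le_ne_top hf (measure_mono h)
    simp only [Fin.forall_fin_succ, Matrix.cons_val_zero, Matrix.cons_val_succ,
      IsEmpty.forall_iff, and_true]
    exact ⟨g _ sdiff_subset, g _ inter_subset_left, g _ inter_subset_left, g _ inter_subset_left,
      g _ inter_subset_left, g _ inter_subset_left, g _ inter_subset_left⟩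
  · rintro ⟨u, v⟩
    classical
    simp only [Fin.sum_univ_succ, Matrix.cons_val_zero, Matrix.cons_val_succ,
      Finset.univ_eq_empty, Finset.sum_empty, indicator_apply, mem_inter_iff, mem_sdiff, mem_prod,
      St, mem_Ioi, mem_Ioc, mem_Iic, mem_univ, Pi.one_apply]
    by_cases hz : (u, v) ∈ E
    · rcases bx_pos' u with ⟨a1, a2, a3⟩ | ⟨a1, a2, a3⟩ | ⟨a1, a2, a3⟩ <;>
      rcases bx_pos' v with ⟨b1, b2, b3⟩ | ⟨b1, b2, b3⟩ | ⟨b1, b2, b3⟩ <;>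
      simp only [hz, a1, a2, a3, b1, b2, b3, and_true, and_false, false_and, not_true_eq_false,
        not_false_eq_true, if_true, if_false] <;> norm_num
    · simp only [hz, false_and, if_false]
      norm_num

theorem bx_three (E K : Set (ℝ × ℝ)) (a b p₁ q₁ p₂ q₂ : ℝ) (hE : MeasurableSet E)
    (hK : MeasurableSet K) (hf : volume E ≠ ⊤) (hs : K ⊆ E) (ha : a ≤ 0) (hb : b ≤ 0)
    (h1 : p₁ ≤ 7 / 25) (h2 : p₂ ≤ 7 / 25) (h3 : 17 / 20 ≤ q₁) (h4 : 17 / 20 ≤ q₂) :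
    11 / 25 * ar (E ∩ St ×ˢ univ) + 11 / 25 * ar (E ∩ univ ×ˢ St) + ar K +
      11 / 25 * (ar (K ∩ Ioi a ×ˢ Ioi p₂) + ar (K ∩ Ioi p₁ ×ˢ Ioi b)) ≤
    Wt E + ar (K ∩ Ioi a ×ˢ Ioi b) + 11 / 25 * (ar (K ∩ univ ×ˢ Ioc p₂ q₂) +
      ar (K ∩ Ioc p₁ q₁ ×ˢ univ) + ar (K ∩ Ioi a ×ˢ Ioi q₂) + ar (K ∩ Ioi q₁ ×ˢ Ioi b)) := by
  have h := lin ![1, 11 / 25, 11 / 25, -(11 / 25), -(11 / 25), -1, -(11 / 25), -(11 / 25), 1,
      11 / 25, 11 / 25, 11 / 25, 11 / 25]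
    ![E \ Ioi 0 ×ˢ Ioi 0, E ∩ St ×ˢ Ioi 0, E ∩ Ioi 0 ×ˢ St, E ∩ St ×ˢ univ, E ∩ univ ×ˢ St, K,
      K ∩ Ioi a ×ˢ Ioi p₂, K ∩ Ioi p₁ ×ˢ Ioi b, K ∩ Ioi a ×ˢ Ioi b, K ∩ univ ×ˢ Ioc p₂ q₂,
      K ∩ Ioc p₁ q₁ ×ˢ univ, K ∩ Ioi a ×ˢ Ioi q₂, K ∩ Ioi q₁ ×ˢ Ioi b] ?_ ?_ ?_
  · simp only [Fin.sum_univ_succ, Matrix.cons_val_zero, Matrix.cons_val_succ,
      Finset.univ_eq_empty, Finset.sum_empty] at h
    unfold Wt
    linarith
  · have g : ∀ s t : ℝ, MeasurableSet (K ∩ Ioi s ×ˢ Ioi t) := fun s t =>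
      hK.inter (measurableSet_Ioi.prod measurableSet_Ioi)
    simp only [Fin.forall_fin_succ, Matrix.cons_val_zero, Matrix.cons_val_succ,
      IsEmpty.forall_iff, and_true]
    exact ⟨hE.diff (measurableSet_Ioi.prod measurableSet_Ioi),
      hE.inter (bx_st.prod measurableSet_Ioi), hE.inter (measurableSet_Ioi.prod bx_st),
      hE.inter (bx_st.prod .univ), hE.inter (MeasurableSet.univ.prod bx_st), hK, g _ _, g _ _,
      g _ _, hK.inter (MeasurableSet.univ.prod measurableSet_Ioc),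
      hK.inter (measurableSet_Ioc.prod .univ), g _ _, g _ _⟩
  · have g : ∀ F, F ⊆ E → volume F ≠ ⊤ := fun F h => ne_top_of_le_ne_top hf (measure_mono h)
    have g' : ∀ F, volume (K ∩ F) ≠ ⊤ := fun F => g _ (inter_subset_left.trans hs)
    simp only [Fin.forall_fin_succ, Matrix.cons_val_zero, Matrix.cons_val_succ,
      IsEmpty.forall_iff, and_true]
    exact ⟨g _ sdiff_subset, g _ inter_subset_left, g _ inter_subset_left, g _ inter_subset_left,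
      g _ inter_subset_left, g _ hs, g' _, g' _, g' _, g' _, g' _, g' _, g' _⟩
  · rintro ⟨u, v⟩
    classical
    simp only [Fin.sum_univ_succ, Matrix.cons_val_zero, Matrix.cons_val_succ,
      Finset.univ_eq_empty, Finset.sum_empty, indicator_apply, mem_inter_iff, mem_sdiff, mem_prod,
      St, mem_Ioi, mem_Ioc, mem_univ, Pi.one_apply]
    by_cases hk : (u, v) ∈ K
    · have hz : (u, v) ∈ E := hs hk
      rcases bx_pos u a p₁ q₁ ha h1 h3 with c | c | c | c | c | c | c | c | c <;>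
      obtain ⟨a1, a2, a3, a4, a5, a6, a7⟩ := c <;>
      rcases bx_pos v b p₂ q₂ hb h2 h4 with d | d | d | d | d | d | d | d | d <;>
      obtain ⟨b1, b2, b3, b4, b5, b6, b7⟩ := d <;>
      simp only [hz, hk, a1, a2, a3, a4, a5, a6, a7, b1, b2, b3, b4, b5, b6, b7, and_true,
        and_false, false_and, not_true_eq_false, not_false_eq_true, if_true, if_false] <;> norm_num
    · by_cases hz : (u, v) ∈ E
      · rcases bx_pos' u with ⟨a1, -, a3⟩ | ⟨a1, -, a3⟩ | ⟨a1, -, a3⟩ <;>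
        rcases bx_pos' v with ⟨b1, -, b3⟩ | ⟨b1, -, b3⟩ | ⟨b1, -, b3⟩ <;>
        simp only [hz, hk, a1, a3, b1, b3, and_true, and_false, false_and, not_true_eq_false,
          not_false_eq_true, if_true, if_false] <;> norm_num
      · simp only [hz, hk, false_and, if_false]
        norm_num

theorem boxS : BoxS := by
  intro E K a b p₁ q₁ p₂ q₂ hE hK hf hs ha hb h1 h2 h3 h4
  have h := bx_two E hE hf
  refine ⟨?_, h, bx_three E K a b p₁ q₁ p₂ q₂ hE hK hf hs ha hb h1 h2 h3 h4⟩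
  linarith [ar_nonneg (E ∩ Iic 0 ×ˢ univ), ar_nonneg (E ∩ univ ×ˢ Iic 0)]

end Pool.Agent.MP_c59ecb_co.al
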