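import Mathlib.Data.Nat.Basic

set_option autoImplicit false

namespace Pool.Agent.MP_c59ecb_co.al

open Nat

/-- Evaluate `a` first. -/
def sv {β : Type} (a : ℕ) (k : ℕ → β) : β := Nat.casesOn a (k 0) fun n => k n.succ

def cum (t : ℕ) : ℕ := sv t fun t =>
  cond (t.ble 4608) (t.mul 225) (cond (t.ble 8448) ((t.mul 148).add 354816) 1605120)

def lm (C S T h v0 v1 x0 x1 : ℕ) : ℕ := sv v1 fun v1 => cond (v1.ble 0) 0 (sv v0 fun v0 =>
  cond (T.ble v0) 0 (
    sv ((S.add ((v1.mul C).div S)).succ) fun r1 => sv (T.sub (((v0.sub S).mul S).div C)) fun r2 =>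
    sv (((C.sub v1).mul S).div C) fun l1 => sv (((v0.sub C).mul C).div S) fun l2 =>
    (cum ((x1.add (cond (r1.ble r2) r1 r2)).sub h)).sub
      (cum ((x0.add (cond (l1.ble l2) l2 l1)).sub h))))

def pq (C S T a b : ℕ) : ℕ := sv (cond (a.ble T) a T) fun a =>
  ((((C.mul (T.sub b)).pow 2).add ((((a.sub S).mul S).sub (C.mul b)).pow 2)).add
      (((S.mul T).sub ((S.mul b).add ((a.sub C).mul C))).pow 2)).sub
    ((((((C.mul C).add ((cond (a.ble C) a C).mul S)).sub (C.mul b)).pow 2).add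
      (((C.mul C).add (S.mul S)).mul ((S.sub b).pow 2))).add
      (((S.mul C).sub ((S.mul b).add ((cond (a.ble S) a S).mul C))).pow 2))

/-- The area on the left of `u`, up to a factor. -/
def gq (C S T u : ℕ) : ℕ := sv u fun u =>
  ((u.pow 2).add ((u.sub T).pow 2)).sub (((u.sub S).pow 2).add ((u.sub C).pow 2))

def ms (C S T h g x0 x1 y0 y1 k : ℕ) : ℕ :=
  (lm C S T g ((k.add h).sub y1) ((k.add h).sub y0) x0 x1).add
    (lm C S T g ((h.add x0).sub k) ((h.add x1).sub k) y0 y1)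

def fin2 (C S T h Q M V x0 x1 y0 y1 : ℕ) : Bool := sv M fun M => sv V fun V =>
  cond (M.ble V) true (
    sv ((h.add 12800).sub x1) fun a0 => sv ((h.add 12800).sub y1) fun b0 =>
    cond ((a0.add b0).ble 0) false (
    sv ((h.add 16384).sub x1) fun px => sv ((h.add 16384).sub y1) fun py =>
    sv ((h.add 23680).sub x0) fun qx => sv ((h.add 23680).sub y0) fun qy =>
    Nat.ble
    ((M.add ((pq C S T a0 b0).mul 500)).add
      (((((gq C S T qy).add (gq C S T qx)).mul Q).add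
        ((pq C S T a0 qy).add (pq C S T qx b0))).mul 220))
    ((V.add ((((C.mul S).mul Q).mul 1000))).add
      (((((gq C S T py).add (gq C S T px)).mul Q).add
        ((pq C S T a0 py).add (pq C S T px b0))).mul 220))))

def vv (C S T h Q E fl x0 x1 : ℕ) : ℕ :=
  cond (cond (x1.ble (fl.add 16384)) (Nat.ble 23680 (x0.add fl)) false) (E.mul 1605120)
    ((((gq C S T ((h.add 23680).sub x1)).sub (gq C S T ((h.add 16384).sub x0))).mul Q).mul 220)

def ok (C S T h Q E Cu Su Tu hu g fl x0 x1 y0 y1 : ℕ) : Bool :=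
  Nat.casesOn (((ms Cu Su Tu hu g x0 x1 y0 y1 12800).add (ms Cu Su Tu hu g x0 x1 y0 y1 25600)).add
    ((ms Cu Su Tu hu g x0 x1 y0 y1 38400).add (ms Cu Su Tu hu g x0 x1 y0 y1 51200))) true
  fun M => fin2 C S T h Q (M.succ.mul E) ((vv C S T h Q E fl x0 x1).add (vv C S T h Q E fl y0 y1))
    x0 x1 y0 y1

noncomputable def go (p : ℕ → ℕ → ℕ → ℕ → Bool) (f : ℕ) : ℕ → ℕ → ℕ → ℕ → ℕ → ℕ :=
  Nat.rec (fun _ _ _ _ _ => 0) (fun _ ih x0 x1 y0 y1 c => sv (c.mod 4) fun d =>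
    cond (d.ble 1) (cond (p x0 x1 y0 y1) (c.div 4) 0)
      (cond (d.ble 2)
        (sv ((x0.add x1).div 2) fun m =>
          Nat.casesOn (ih x0 m y0 y1 (c.div 4)) 0 fun r => ih m x1 y0 y1 r.succ)
        (sv ((y0.add y1).div 2) fun m =>
          Nat.casesOn (ih x0 x1 y0 m (c.div 4)) 0 fun r => ih x0 x1 m y1 r.succ))) f

end Pool.Agent.MP_c59ecb_co.al
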