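import Pool.Agent.MP_c59ecb_co.al.Spec

/-! The total mass is at most the sum of the masses of the squares. -/

set_option autoImplicit false

namespace Pool.Agent.MP_c59ecb_co.al

open MeasureTheory Set

theorem ct_cov {α : Type} [MeasureSpace α] {N : ℕ} (E : Fin N → Set α) (A : Set α)
    (hA : volume A ≠ ⊤) (h : ∀ z ∈ A, ∃ i, z ∈ E i) :
    volume.real A ≤ ∑ i, volume.real (E i ∩ A) := by
  have hf : ∀ i, volume (E i ∩ A) ≠ ⊤ := fun i =>
    ne_top_of_le_ne_top hA (measure_mono inter_subset_right)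
  refine le_trans (measureReal_mono (s₂ := ⋃ i, E i ∩ A) (fun z hz => ?_) ?_)
    (measureReal_iUnion_fintype_le _)
  · obtain ⟨i, hi⟩ := h z hz
    exact mem_iUnion.2 ⟨i, hi, hz⟩
  · exact ne_top_of_le_ne_top hA (measure_mono (iUnion_subset fun i => inter_subset_right))

theorem ct_seg {N : ℕ} (T : Fin N → Set ℝ) (h : ∀ t ∈ Icc (0 : ℝ) 1, ∃ i, t ∈ T i) :
    627 / 2500 ≤ ∑ i, hs (T i) := by
  have h1 := ct_cov T (Icc 0 (9 / 25)) (by simp) fun t ht => h t ⟨ht.1, by linarith [ht.2]⟩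
  have h2 := ct_cov T (Icc 0 (33 / 50)) (by simp) fun t ht => h t ⟨ht.1, by linarith [ht.2]⟩
  rw [Real.volume_real_Icc_of_le (by norm_num)] at h1 h2
  simp only [hs, Finset.sum_add_distrib, ← Finset.mul_sum]
  linarith

theorem ct_ls {N : ℕ} (F : Fin N → Set (ℝ × ℝ)) (n : ℕ)
    (h : ∀ t ∈ Icc (0 : ℝ) 1, ∀ k ∈ Icc (0 : ℝ) n, ∃ i, (t, k) ∈ F i) :
    (n + 1) * (627 / 2500 : ℝ) ≤ ∑ i, ls (F i) (n + 1) := by
  simp only [ls]
  rw [Finset.sum_comm]
  have := Finset.card_nsmul_le_sum (Finset.range (n + 1))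
    (fun k : ℕ => ∑ i, hs {t | (t, (k : ℝ)) ∈ F i}) (627 / 2500) fun k hk =>
      ct_seg (fun i => {t | (t, (k : ℝ)) ∈ F i}) fun t ht => h t ht k
        ⟨Nat.cast_nonneg k, Nat.cast_le.2 (Nat.lt_succ_iff.1 (Finset.mem_range.1 hk))⟩
  simpa using this

theorem ct_split {B P R : Set (ℝ × ℝ)} (E : Set (ℝ × ℝ)) (hB : volume B ≠ ⊤)
    (hP : MeasurableSet P) (hR : MeasurableSet R) (h1 : P ⊆ B) (h2 : R ⊆ B) (hd : Disjoint P R) :
    ar (E ∩ B) = ar (E ∩ (B \ (P ∪ R))) + ar (E ∩ P) + ar (E ∩ R) := by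
  have hf : volume (E ∩ B) ≠ ⊤ := ne_top_of_le_ne_top hB (measure_mono inter_subset_right)
  have e1 := measureReal_inter_add_sdiff (μ := volume) (s := E ∩ B) hP hf
  have e2 := measureReal_inter_add_sdiff (μ := volume) (s := (E ∩ B) \ P) hR
    (ne_top_of_le_ne_top hf (measure_mono sdiff_subset))
  have a1 : E ∩ B ∩ P = E ∩ P := by
    ext z
    exact ⟨fun h => ⟨h.1.1, h.2⟩, fun h => ⟨⟨h.1, h1 h.2⟩, h.2⟩⟩
  have a2 : (E ∩ B) \ P ∩ R = E ∩ R := by
    ext z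
    exact ⟨fun h => ⟨h.1.1.1, h.2⟩,
      fun h => ⟨⟨⟨h.1, h2 h.2⟩, fun k => disjoint_left.1 hd k h.2⟩, h.2⟩⟩
  have a3 : ((E ∩ B) \ P) \ R = E ∩ (B \ (P ∪ R)) := by
    ext z
    simp only [mem_sdiff, mem_inter_iff, mem_union]
    tauto
  rw [a1] at e1
  rw [a2, a3] at e2
  unfold ar
  linarith

/-- two disjoint strips are taken away from a covered set -/
theorem ct_two {N : ℕ} (E : Fin N → Set (ℝ × ℝ)) {B P R : Set (ℝ × ℝ)} (hB : volume B ≠ ⊤)
    (hP : MeasurableSet P) (hR : MeasurableSet R) (h1 : P ⊆ B) (h2 : R ⊆ B) (hd : Disjoint P R)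
    (h : ∀ z ∈ B, ∃ i, z ∈ E i) :
    ar B - ar P - ar R ≤ ∑ i, ar (E i ∩ B) - ∑ i, ar (E i ∩ P) - ∑ i, ar (E i ∩ R) := by
  have e := ct_split univ hB hP hR h1 h2 hd
  simp only [univ_inter] at e
  have c := ct_cov E (B \ (P ∪ R)) (ne_top_of_le_ne_top hB (measure_mono sdiff_subset))
    fun z hz => h z hz.1
  have s : ∑ i, ar (E i ∩ B) =
      ∑ i, ar (E i ∩ (B \ (P ∪ R))) + ∑ i, ar (E i ∩ P) + ∑ i, ar (E i ∩ R) := by
    rw [← Finset.sum_add_distrib, ← Finset.sum_add_distrib]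
    exact Finset.sum_congr rfl fun i _ => ct_split (E i) hB hP hR h1 h2 hd
  unfold ar at *
  linarith

theorem ct_prod (S T : Set ℝ) : ar (S ×ˢ T) = volume.real S * volume.real T := by
  rw [ar, Measure.volume_eq_prod, measureReal_prod_prod]

theorem ct_l (n x y c s t k : ℝ) : (t, k) ∈ Sq (n - x) y s c ↔ (n - t, k) ∈ Sq x y c s := by
  simp only [Sq, mem_ofPred_eq, add_comm (s ^ 2)]
  rw [and_comm, show c * (n - t - x) + s * (k - y) = s * (k - y) - c * (t - (n - x)) by ring,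
    show c * (k - y) - s * (n - t - x) = s * (t - (n - x)) + c * (k - y) by ring]

theorem ct_r (n x y c s t k : ℝ) : (t, k) ∈ Sq (n - y) x c s ↔ (k, n - t) ∈ Sq x y c s := by
  simp only [Sq, mem_ofPred_eq]
  rw [and_comm, show c * (k - x) + s * (n - t - y) = c * (k - x) - s * (t - (n - y)) by ring,
    show c * (n - t - y) - s * (k - x) = -(c * (t - (n - y)) + s * (k - x)) by ring, abs_neg]

theorem ct_pre {f : ℝ × ℝ → ℝ × ℝ} (hf : MeasurePreserving f volume volume) {A : Set (ℝ × ℝ)}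
    (hA : MeasurableSet A) : ar (f ⁻¹' A) = ar A := by
  rw [ar, ar, Measure.real, Measure.real, hf.measure_preimage hA.nullMeasurableSet]

theorem countS : CountS := by
  intro n N x y c s hn _ hc
  have hn' : (2 : ℝ) ≤ n := by exact_mod_cast hn
  set I : Set ℝ := Ioo 0 (n : ℝ) with hI
  set St' : Set ℝ := Ico (n - 17 / 20 : ℝ) (n - 7 / 25) with hSt'
  have mem : ∀ t : ℝ, n - t ∈ St' ↔ t ∈ St := fun t => by
    simp only [hSt', St, mem_Ico, mem_Ioc]
    constructor <;> rintro ⟨h1, h2⟩ <;> constructor <;> linarith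
  have mS : MeasurableSet St := measurableSet_Ioc
  have mS' : MeasurableSet St' := measurableSet_Ico
  have mI : MeasurableSet I := measurableSet_Ioo
  have sub : St ⊆ I := fun t ht => ⟨by linarith [ht.1], by linarith [ht.2]⟩
  have sub' : St' ⊆ I := fun t ht => ⟨by linarith [ht.1], by linarith [ht.2]⟩
  have dj : Disjoint St St' := disjoint_left.2 fun t h1 h2 => by linarith [h1.2, h2.1]
  have vI : volume.real I = n := by rw [hI, Real.volume_real_Ioo_of_le (by linarith), sub_zero]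
  have vS : volume.real St = 57 / 100 := by
    rw [St, Real.volume_real_Ioc_of_le (by norm_num)]; norm_num
  have vS' : volume.real St' = 57 / 100 := by
    rw [hSt', Real.volume_real_Ico_of_le (by linarith)]; ring
  have hB : volume (I ×ˢ I) ≠ ⊤ := by
    rw [Measure.volume_eq_prod, Measure.prod_prod]
    simp [hI, ENNReal.mul_ne_top]
  have cov : ∀ z ∈ I ×ˢ I, ∃ i, z ∈ Sq (x i) (y i) (c i) (s i) := fun z hz =>
    hc z.1 (Ioo_subset_Icc_self hz.1) z.2 (Ioo_subset_Icc_self hz.2)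
  have d0 : ar (I ×ˢ I) ≤ ∑ i, ar (Sq (x i) (y i) (c i) (s i) ∩ I ×ˢ I) := ct_cov _ _ hB cov
  have d1 := ct_two _ hB (mS.prod mI) (mS'.prod mI) (prod_mono_left sub) (prod_mono_left sub')
    (disjoint_left.2 fun z h1 h2 => disjoint_left.1 dj h1.1 h2.1) cov
  have d2 := ct_two _ hB (mI.prod mS) (mI.prod mS') (prod_mono_right sub) (prod_mono_right sub')
    (disjoint_left.2 fun z h1 h2 => disjoint_left.1 dj h1.2 h2.2) cov
  simp only [ct_prod, vI, vS, vS'] at d0 d1 d2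
  have p1 : MeasurePreserving (Prod.swap : ℝ × ℝ → ℝ × ℝ) volume volume :=
    Measure.measurePreserving_swap
  have p2 : MeasurePreserving (Prod.map (fun t : ℝ => n - t) (id : ℝ → ℝ)) volume volume :=
    (Measure.measurePreserving_sub_left volume (n : ℝ)).prod (MeasurePreserving.id volume)
  have a1 : ∀ i, ar (Sq (y i) (x i) (s i) (c i) ∩ St ×ˢ I) =
      ar (Sq (x i) (y i) (c i) (s i) ∩ I ×ˢ St) := fun i => by
    rw [← ct_pre p1 ((sq_meas _ _ _ _).inter (mI.prod mS))]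
    congr 1
    ext ⟨a, b⟩
    simp only [mem_inter_iff, mem_prod, mem_preimage, Prod.swap_prod_mk, sq_swap (x i), and_comm]
  have a2 : ∀ i, ar (Sq (n - x i) (y i) (s i) (c i) ∩ St ×ˢ I) =
      ar (Sq (x i) (y i) (c i) (s i) ∩ St' ×ˢ I) := fun i => by
    rw [← ct_pre p2 ((sq_meas (x i) _ _ _).inter (mS'.prod mI))]
    congr 1
    ext ⟨a, b⟩
    simp only [mem_inter_iff, mem_prod, mem_preimage, Prod.map_apply, id, ct_l, mem]
  have a3 : ∀ i, ar (Sq (n - y i) (x i) (c i) (s i) ∩ St ×ˢ I) =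
      ar (Sq (x i) (y i) (c i) (s i) ∩ I ×ˢ St') := fun i => by
    rw [← ct_pre (p1.comp p2) ((sq_meas (x i) _ _ _).inter (mI.prod mS'))]
    congr 1
    ext ⟨a, b⟩
    simp only [mem_inter_iff, mem_prod, mem_preimage, Function.comp, Prod.map_apply, id,
      Prod.swap_prod_mk, ct_r, mem, and_comm]
  have i1 : ∀ t ∈ Icc (0 : ℝ) 1, t ∈ Icc (0 : ℝ) n := fun t ht => ⟨ht.1, by linarith [ht.2]⟩
  have i2 : ∀ t ∈ Icc (0 : ℝ) 1, n - t ∈ Icc (0 : ℝ) n := fun t ht =>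
    ⟨by linarith [ht.2], by linarith [ht.1]⟩
  have l1 := ct_ls (fun i => Sq (x i) (y i) (c i) (s i)) n fun t ht k hk => hc t (i1 t ht) k hk
  have l2 := ct_ls (fun i => Sq (y i) (x i) (s i) (c i)) n fun t ht k hk =>
    (hc k hk t (i1 t ht)).imp fun i hi => (sq_swap _ _ _ _ _ _).2 hi
  have l3 := ct_ls (fun i => Sq (n - x i) (y i) (s i) (c i)) n fun t ht k hk =>
    (hc _ (i2 t ht) k hk).imp fun i hi => (ct_l _ _ _ _ _ _ _).2 hi
  have l4 := ct_ls (fun i => Sq (n - y i) (x i) (c i) (s i)) n fun t ht k hk =>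
    (hc k hk _ (i2 t ht)).imp fun i hi => (ct_r _ _ _ _ _ _ _).2 hi
  simp only [mu, Lf, ← hI, a1, a2, a3, Finset.sum_add_distrib, Finset.sum_sub_distrib,
    ← Finset.mul_sum]
  nlinarith

end Pool.Agent.MP_c59ecb_co.al
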