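import Pool.Agent.MP_c59ecb_co.al.Spec

/-! The area of a square in a half plane. -/

set_option autoImplicit false

namespace Pool.Agent.MP_c59ecb_co.al

open MeasureTheory Set

theorem hf_p {t : ℝ} (h : 0 ≤ t) : pos t = t := max_eq_left h

theorem hf_n {t : ℝ} (h : t ≤ 0) : pos t = 0 := max_eq_right h

theorem hf_mul {c : ℝ} (h : 0 ≤ c) (t : ℝ) : pos (c * t) = c * pos t := by
  unfold pos
  rw [mul_max_of_nonneg _ _ h, mul_zero]

theorem hf_sq (a b : ℝ) : pos (a - b) ^ 2 = (b - a) ^ 2 - pos (b - a) ^ 2 := by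
  rcases le_total a b with h | h
  · rw [hf_n (sub_nonpos.2 h), hf_p (sub_nonneg.2 h)]
    ring
  · rw [hf_p (sub_nonneg.2 h), hf_n (sub_nonpos.2 h)]
    ring

theorem hf_sub (u : ℝ) {t : ℝ} (h : 0 ≤ t) : pos (u - t) = pos (pos u - t) := by
  rcases le_total u 0 with k | k
  · rw [hf_n k, hf_n (by linarith), hf_n (by linarith)]
  · rw [hf_p k]

theorem hf_min (p t : ℝ) : min p t = p - pos (p - t) := by
  rcases le_total p t with h | h
  · rw [min_eq_left h, hf_n (sub_nonpos.2 h), sub_zero]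
  · rw [min_eq_right h, hf_p (sub_nonneg.2 h)]
    ring

theorem hf_cut (p t : ℝ) {c : ℝ} (h : 0 ≤ c) :
    pos (min p (c + t) - t) = pos (p - t) - pos (p - (c + t)) := by
  rcases le_total p (c + t) with k | k
  · rw [min_eq_left k, hf_n (sub_nonpos.2 k), sub_zero]
  · rw [min_eq_right k, hf_p (by linarith), hf_p (by linarith), hf_p (by linarith)]
    ring

theorem hf_right {C S : ℝ} (hC : 0 < C) (hS : 0 < S) (u : ℝ) :
    Pn C S 0 u = (C ^ 2 + S ^ 2) * (2 * C * S - Gn C S u) := by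
  have hp : 0 ≤ pos u := le_max_right _ _
  unfold Pn Gn
  rw [hf_sub u hS.le, hf_sub u hC.le, hf_sub u (add_pos hC hS).le, hf_n (le_refl 0)]
  generalize pos u = p at hp
  rw [min_eq_left (add_pos hC hS).le, min_eq_left hC.le, min_eq_left hS.le,
    hf_n (show 0 - S ≤ 0 by linarith), hf_n (show 0 - C ≤ 0 by linarith),
    hf_n (show 0 * S - C * p ≤ 0 by linarith [mul_nonneg hC.le hp]),
    show S * (C + S) - (S * p + 0 * C) = S * (C + S - p) by ring,
    show C * C + 0 * S - C * p = C * (C - p) by ring,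
    show S * C - (S * p + 0 * C) = S * (C - p) by ring, hf_mul hS.le, hf_mul hS.le, hf_mul hC.le,
    mul_pow, mul_pow, mul_pow, mul_pow, hf_sq (C + S) p, hf_sq C p, hf_sq S p]
  ring

theorem hf_left {C S : ℝ} (hC : 0 < C) (hS : 0 < S) (u : ℝ) :
    Pn C S u 0 = (C ^ 2 + S ^ 2) * (2 * C * S - Gn C S u) := by
  have hp : 0 ≤ pos u := le_max_right _ _
  unfold Pn Gn
  rw [hf_sub u hS.le, hf_sub u hC.le, hf_sub u (add_pos hC hS).le, hf_n (le_refl 0)]
  generalize pos u = p at hp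
  have a1 : 0 ≤ pos (min p (C + S) - S) := le_max_right _ _
  have a2 : pos (min p (C + S) - C) ≤ S := max_le (by linarith [min_le_right p (C + S)]) hS.le
  have a3 : 0 ≤ min p C := le_min hp hC.le
  have a4 := min_le_right p S
  rw [hf_p (show 0 ≤ C + S - 0 by linarith), hf_p (show 0 ≤ S - 0 by linarith),
    hf_p (show 0 ≤ pos (min p (C + S) - S) * S - C * 0 by linarith [mul_nonneg a1 hS.le]),
    hf_p (show 0 ≤ S * (C + S) - (S * 0 + pos (min p (C + S) - C) * C) by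
      linarith [mul_le_mul_of_nonneg_right a2 hC.le, mul_pos hS hS]),
    hf_p (show 0 ≤ C * C + min p C * S - C * 0 by linarith [mul_nonneg a3 hS.le, mul_pos hC hC]),
    hf_p (show 0 ≤ S * C - (S * 0 + min p S * C) by
      linarith [mul_le_mul_of_nonneg_right a4 hC.le]),
    hf_cut p S hC.le, add_comm C S, hf_cut p C hS.le, hf_min p C, hf_min p S]
  rcases le_total p (S + C) with k | k
  · rw [hf_n (sub_nonpos.2 k)]
    rcases le_total p S with k1 | k1 <;> rcases le_total p C with k2 | k2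
    · rw [hf_n (sub_nonpos.2 k1), hf_n (sub_nonpos.2 k2)]
      ring
    · rw [hf_n (sub_nonpos.2 k1), hf_p (sub_nonneg.2 k2)]
      ring
    · rw [hf_p (sub_nonneg.2 k1), hf_n (sub_nonpos.2 k2)]
      ring
    · rw [hf_p (sub_nonneg.2 k1), hf_p (sub_nonneg.2 k2)]
      ring
  · rw [hf_p (sub_nonneg.2 k), hf_p (show 0 ≤ p - S by linarith),
      hf_p (show 0 ≤ p - C by linarith)]
    ring

theorem hf_add {E A B D : Set (ℝ × ℝ)} (hE : volume E ≠ ⊤) (hB : MeasurableSet B)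
    (h1 : ∀ z, z ∈ D ∧ z ∈ B ↔ z ∈ B) (h2 : ∀ z, z ∈ D ∧ z ∉ B ↔ z ∈ A) :
    ar (E ∩ A) = ar (E ∩ D) - ar (E ∩ B) := by
  have h := measureReal_inter_add_sdiff (μ := volume) (s := E ∩ D) hB
    (ne_top_of_le_ne_top hE (measure_mono inter_subset_left))
  have e1 : E ∩ D ∩ B = E ∩ B := by
    rw [inter_assoc]
    exact congrArg _ (Set.ext h1)
  have e2 : (E ∩ D) \ B = E ∩ A := by
    rw [inter_sdiff_assoc]
    exact congrArg _ (Set.ext h2)
  rw [e1, e2] at h
  unfold ar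
  linarith

theorem halfS (h : AreaS) : HalfS := by
  intro x y C S a hC hS
  have hf := sq_fin (x := x) (y := y) hC hS
  have hs := sq_sub (x := x) (y := y) hC hS
  have h1 : ∀ a, 2 * C * S * ar (Sq x y C S ∩ Ioi a ×ˢ univ) =
      (C ^ 2 + S ^ 2) * (2 * C * S - Gn C S (a - x + (C + S) / 2)) := fun a => by
    have e : Sq x y C S ∩ Ioi a ×ˢ univ = Sq x y C S ∩ Ioi a ×ˢ Ioi (y - (C + S) / 2) :=
      Set.ext fun z => and_congr_right fun hz =>
        ⟨fun k => ⟨k.1, (hs hz).2.1⟩, fun k => ⟨k.1, mem_univ _⟩⟩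
    rw [e, h x y C S _ _ hC hS, show y - (C + S) / 2 - y + (C + S) / 2 = 0 by ring, hf_left hC hS]
  have h2 : ∀ a, 2 * C * S * ar (Sq x y C S ∩ univ ×ˢ Ioi a) =
      (C ^ 2 + S ^ 2) * (2 * C * S - Gn C S (a - y + (C + S) / 2)) := fun a => by
    have e : Sq x y C S ∩ univ ×ˢ Ioi a = Sq x y C S ∩ Ioi (x - (C + S) / 2) ×ˢ Ioi a :=
      Set.ext fun z => and_congr_right fun hz =>
        ⟨fun k => ⟨(hs hz).1.1, k.2⟩, fun k => ⟨mem_univ _, k.2⟩⟩
    rw [e, h x y C S _ _ hC hS, show x - (C + S) / 2 - x + (C + S) / 2 = 0 by ring, hf_right hC hS]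
  have h0 : ar (Sq x y C S) = C ^ 2 + S ^ 2 := by
    have e : Sq x y C S ∩ Ioi (x - (C + S) / 2) ×ˢ univ = Sq x y C S :=
      inter_eq_left.2 fun z hz => ⟨(hs hz).1.1, mem_univ _⟩
    have k := h1 (x - (C + S) / 2)
    rw [e, show x - (C + S) / 2 - x + (C + S) / 2 = 0 by ring, Gn, hf_n (le_refl 0),
      hf_n (show 0 - (C + S) ≤ 0 by linarith), hf_n (show 0 - S ≤ 0 by linarith),
      hf_n (show 0 - C ≤ 0 by linarith)] at k
    refine mul_left_cancel₀ (show 2 * C * S ≠ 0 by positivity) ?_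
    rw [k]
    ring
  have m1 : ∀ a : ℝ, MeasurableSet (Ioi a ×ˢ (univ : Set ℝ)) := fun a =>
    measurableSet_Ioi.prod MeasurableSet.univ
  have m2 : ∀ a : ℝ, MeasurableSet ((univ : Set ℝ) ×ˢ Ioi a) := fun a =>
    MeasurableSet.univ.prod measurableSet_Ioi
  refine ⟨h0, h1 a, h2 a, ?_, ?_, fun b hab => ⟨?_, ?_⟩⟩
  · rw [hf_add (D := univ) hf (m1 a) (fun z => by simp) (fun z => by simp), inter_univ, mul_sub,
      h0, h1]
    ring
  · rw [hf_add (D := univ) hf (m2 a) (fun z => by simp) (fun z => by simp), inter_univ, mul_sub,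
      h0, h2]
    ring
  · rw [hf_add (D := Ioi a ×ˢ univ) hf (m1 b)
      (fun z => by simpa using fun k => lt_of_le_of_lt hab k) (fun z => by simp), mul_sub, h1, h1]
    ring
  · rw [hf_add (D := univ ×ˢ Ioi a) hf (m2 b)
      (fun z => by simpa using fun k => lt_of_le_of_lt hab k) (fun z => by simp), mul_sub, h2, h2]
    ring

end Pool.Agent.MP_c59ecb_co.al
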