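import Pool.Agent.MP_c59ecb_co.al.Spec

/-! The mass on the segments, in integers. -/

set_option autoImplicit false

namespace Pool.Agent.MP_c59ecb_co.al

open MeasureTheory Set

theorem na_sub (a b : ℕ) : ((a - b : ℕ) : ℝ) = pos (a - b) := by
  unfold pos
  rcases le_total a b with h | h
  · rw [Nat.sub_eq_zero_of_le h, max_eq_right (sub_nonpos.2 (Nat.cast_le.2 h)), Nat.cast_zero]
  · rw [Nat.cast_sub h, max_eq_left (sub_nonneg.2 (Nat.cast_le.2 h))]

theorem na_cum0 (t : ℕ) :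
    cum t = if t ≤ 4608 then t * 225 else if t ≤ 8448 then t * 148 + 354816 else 1605120 := by
  simp only [cum, sv_eq, Bool.cond_eq_ite, Nat.ble_eq, Nat.mul_eq, Nat.add_eq]

theorem na_cum (a b : ℕ) :
    (cum (a - b) : ℝ) = 500 * 12800 * cumR (((a : ℝ) - b) / 12800) := by
  have e : pos (((a : ℝ) - b) / 12800) = ((a - b : ℕ) : ℝ) / 12800 := by
    rw [na_sub]
    unfold pos
    rw [← max_div_div_right (by norm_num), zero_div]
  unfold cumR
  rw [e, na_cum0]
  generalize a - b = t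
  split_ifs with h1 h2
  · have h : (t : ℝ) ≤ 4608 := by exact_mod_cast h1
    rw [min_eq_left (by linarith), min_eq_left (by linarith)]
    push_cast
    ring
  · have h : (4608 : ℝ) ≤ t := by exact_mod_cast (not_le.1 h1).le
    have h' : (t : ℝ) ≤ 8448 := by exact_mod_cast h2
    rw [min_eq_right (by linarith), min_eq_left (by linarith)]
    push_cast
    ring
  · have h : (8448 : ℝ) ≤ t := by exact_mod_cast (not_le.1 h2).le
    rw [min_eq_right (by linarith), min_eq_right (by linarith)]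
    norm_num

theorem na_lm (C S T h v0 v1 x0 x1 : ℕ) : lm C S T h v0 v1 x0 x1 =
    if v1 ≤ 0 then 0 else if T ≤ v0 then 0 else
      cum (x1 + min (S + v1 * C / S + 1) (T - (v0 - S) * S / C) - h) -
        cum (x0 + max ((C - v1) * S / C) ((v0 - C) * C / S) - h) := by
  simp only [lm, sv_eq, Bool.cond_eq_ite, Nat.ble_eq, min_def, max_def]
  rfl

theorem na_scale {x y C S t w : ℝ} (h : (t, w) ∈ Sq x y (C / 12800) (S / 12800)) :
    (12800 * t, 12800 * w) ∈ Sq (12800 * x) (12800 * y) C S := by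
  obtain ⟨h1, h2⟩ := h
  obtain ⟨h3, h4⟩ := abs_lt.1 h1
  obtain ⟨h5, h6⟩ := abs_lt.1 h2
  dsimp only at h3 h4 h5 h6
  refine ⟨abs_lt.2 ⟨?_, ?_⟩, abs_lt.2 ⟨?_, ?_⟩⟩ <;> dsimp only <;> linarith

/-- A floor of a truncated quotient. -/
theorem na_fl (a b p q : ℕ) {U z : ℝ} (hU : 0 ≤ U) (hz : (a : ℝ) - b ≤ z) (h : z * p / q ≤ U) :
    (((a - b) * p / q : ℕ) : ℝ) ≤ U := by
  rcases le_total a b with k | k
  · simpa [Nat.sub_eq_zero_of_le k] using hU
  · refine Nat.cast_div_le.trans (le_trans ?_ h)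
    rw [Nat.cast_mul, Nat.cast_sub k]
    gcongr

theorem natA : NatA := by
  intro C S h v0 v1 x0 x1 x y w T hC hS hh hx hT h0 h1
  have hC' : (0 : ℝ) < C := Nat.cast_pos.2 hC
  have hS' : (0 : ℝ) < S := Nat.cast_pos.2 hS
  have hh' : (h : ℝ) = (C + S) / 2 := by
    have : (2 : ℝ) * h = C + S := by exact_mod_cast hh
    linarith
  rcases T.eq_empty_or_nonempty with rfl | ⟨t0, ht0⟩
  · rw [hs_empty, mul_zero]
    exact Nat.cast_nonneg _
  have ch := fun t (ht : t ∈ T) => sq_ch (u := 12800 * (t - x) + h) (v := 12800 * (w - y) + h)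
    hC' hS' (na_scale (hT t ht)) (by linarith) (by linarith)
  obtain ⟨-, ⟨a1, a2⟩, -⟩ := ch t0 ht0
  rw [pos, max_eq_left a1.le] at h0
  have b1 : ¬ v1 ≤ 0 := fun k => by
    have : (v1 : ℝ) ≤ 0 := by exact_mod_cast k
    linarith
  have b2 : ¬ C + S ≤ v0 := fun k => by
    have : (C : ℝ) + S ≤ v0 := by exact_mod_cast k
    linarith
  rw [na_lm, if_neg b1, if_neg b2, na_sub, na_cum, na_cum, ← mul_sub]
  refine (mul_le_mul_of_nonneg_left (hs_le fun t ht => ?_) (by norm_num)).trans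
    (by unfold pos; rw [mul_max_of_nonneg _ _ (by norm_num), mul_zero])
  obtain ⟨⟨u1, u2⟩, -, c1, c2, c3, c4⟩ := ch t ht
  obtain ⟨x2, x3, -⟩ := hx
  have l1 := na_fl C v1 S C u1.le (by linarith) c1.le
  have l2 := na_fl v0 C C S u1.le (by linarith) c2.le
  have r2 := na_fl v0 S S C (U := C + S - (12800 * (t - x) + h)) (z := 12800 * (w - y) + h - S)
    (by linarith) (by linarith) (by linarith)
  have r1 : (12800 * (w - y) + h) * C / S ≤ ((v1 * C / S : ℕ) : ℝ) + 1 := by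
    have k : ((v1 * C : ℕ) : ℝ) ≤ (v1 * C / S * S + S : ℕ) :=
      Nat.cast_le.2 (Nat.lt_div_mul_add hS).le
    rw [div_le_iff₀ hS']
    rw [Nat.cast_add, Nat.cast_mul, Nat.cast_mul] at k
    nlinarith
  have r3 : ((C + S : ℕ) : ℝ) - ((v0 - S) * S / C : ℕ) ≤ (C + S - (v0 - S) * S / C : ℕ) := by
    rw [na_sub (C + S)]
    exact le_max_left _ _
  have l3 := max_le l1 l2
  have r4 : 12800 * (t - x) + h ≤ min ((S + v1 * C / S + 1 : ℕ) : ℝ)
      (C + S - (v0 - S) * S / C : ℕ) := by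
    refine le_min ?_ ?_
    · rw [Nat.cast_add, Nat.cast_add, Nat.cast_one]
      linarith
    · rw [Nat.cast_add] at r3
      linarith
  rw [Nat.cast_add x0, Nat.cast_add x1, Nat.cast_add h, Nat.cast_max, Nat.cast_min,
    Nat.cast_ofNat]
  constructor <;> linarith

theorem na_ls {E : Set (ℝ × ℝ)} (h : ∀ z ∈ E, z.2 < 4) (m : ℕ) : ls E m ≤ ls E 4 := by
  unfold ls
  rcases le_total m 4 with k | k
  · exact Finset.sum_le_sum_of_subset_of_nonneg (Finset.range_mono k) fun _ _ _ => hs_nonneg _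
  · refine (Finset.sum_subset (Finset.range_mono k) fun j _ hj => ?_).ge
    have hj' : (4 : ℝ) ≤ j := by exact_mod_cast not_lt.1 fun k => hj (Finset.mem_range.2 k)
    have e : {t | (t, (j : ℝ)) ∈ E} = ∅ :=
      eq_empty_of_forall_notMem fun t ht => (h (t, j) ht).not_ge hj'
    rw [e, hs_empty]

theorem natL (hA : NatA) : NatL := by
  intro C S h x0 x1 y0 y1 m x y c s hC hS hh hu hsub hx hy
  have hs1 := hu.sum_lt
  have e1 := na_ls (E := Sq x y c s) (fun z hz => by
    have := (sq_sub hu.1 hu.2.1 hz).2.2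
    linarith [hy.2.2]) m
  have e2 := na_ls (E := Sq y x s c) (fun z hz => by
    have := (sq_sub hu.2.1 hu.1 hz).2.2
    linarith [hx.2.2]) m
  have one : ∀ k K : ℕ, (K : ℝ) = 12800 * (k + 1) →
      500 * 12800 * (hs {t | (t, (k : ℝ)) ∈ Sq x y c s} + hs {t | (t, (k : ℝ)) ∈ Sq y x s c}) ≤
        ms C S (C + S) h (h + 12800) x0 x1 y0 y1 K := fun k K hK => by
    have p1 := hA C S h (K + h - y1) (K + h - y0) x0 x1 x y k {t | (t, (k : ℝ)) ∈ Sq x y c s}
      hC hS hh hx (fun t ht => hsub ht)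
      (by rw [na_sub, Nat.cast_add]; exact max_le_max (by linarith [hy.2.1]) le_rfl)
      (by rw [na_sub, Nat.cast_add]; exact le_trans (by linarith [hy.1]) (le_max_left _ _))
    have p2 := hA C S h (h + x0 - K) (h + x1 - K) y0 y1 y x (2 * x - k)
      {t | (t, (k : ℝ)) ∈ Sq y x s c} hC hS hh hy
      (fun t ht => (sq_refl _ _ _ _ _ _).1 ((sq_swap _ _ _ _ _ _).2
        (hsub ((sq_swap _ _ _ _ _ _).1 ht))))
      (by rw [na_sub, Nat.cast_add]; exact max_le_max (by linarith [hx.1]) le_rfl)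
      (by rw [na_sub, Nat.cast_add]; exact le_trans (by linarith [hx.2.1]) (le_max_left _ _))
    rw [mul_add]
    exact (add_le_add p1 p2).trans_eq (Nat.cast_add _ _).symm
  have q0 := one 0 12800 (by norm_num)
  have q1 := one 1 25600 (by norm_num)
  have q2 := one 2 38400 (by norm_num)
  have q3 := one 3 51200 (by norm_num)
  have f : ∀ E, ls E 4 = hs {t | (t, ((0 : ℕ) : ℝ)) ∈ E} + hs {t | (t, ((1 : ℕ) : ℝ)) ∈ E} +
      hs {t | (t, ((2 : ℕ) : ℝ)) ∈ E} + hs {t | (t, ((3 : ℕ) : ℝ)) ∈ E} := fun E => by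
    simp only [ls, Finset.sum_range_succ, Finset.sum_range_zero, zero_add]
  rw [f] at e1 e2
  simp only [Nat.add_eq, Nat.cast_add]
  linarith

end Pool.Agent.MP_c59ecb_co.al
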