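import Pool.Agent.MP_c59ecb_co.al.Spec

/-! Reduction of a covering by closed unit squares to a covering by open tilted unit squares. -/

set_option autoImplicit false

namespace Pool.Agent.MP_c59ecb_co.al

open MeasureTheory Set

theorem rd_one {p q r : ℝ} (hp : 0 < p) (hq : 0 ≤ q) (h : p ^ 2 + q ^ 2 = 1) (r0 : 0 < r)
    (r1 : r < 1) : ∃ c s, Un c s ∧ ∀ dx dy : ℝ, |p * dx + q * dy| ≤ r / 2 →
      |p * dy - q * dx| ≤ r / 2 → |c * dx + s * dy| < 1 / 2 ∧ |c * dy - s * dx| < 1 / 2 := by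
  rcases hq.eq_or_lt with rfl | hq
  · have e : p = 1 := by nlinarith
    subst e
    obtain ⟨s, hs⟩ : ∃ s, s = (1 - r) / 2 := ⟨_, rfl⟩
    have s0 : 0 < s := by linarith
    have s1 : 0 < 1 - s ^ 2 := by nlinarith
    have c0 := Real.sqrt_pos.2 s1
    have c1 := Real.sq_sqrt s1.le
    generalize Real.sqrt (1 - s ^ 2) = c at c0 c1
    have c2 : c ≤ 1 := by nlinarith
    have k : (1 + s) * (r / 2) < 1 / 2 := by nlinarith
    refine ⟨c, s, ⟨c0, s0, by linarith⟩, fun dx dy h1 h2 => ?_⟩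
    simp only [one_mul, zero_mul, add_zero, sub_zero] at h1 h2
    have g : ∀ u v : ℝ, |u| ≤ r / 2 → |v| ≤ r / 2 → |c * u + s * v| < 1 / 2 := fun u v a b => by
      refine (abs_add_le _ _).trans_lt ?_
      rw [abs_mul, abs_mul, abs_of_pos c0, abs_of_pos s0]
      have e1 := mul_le_mul c2 a (abs_nonneg _) zero_le_one
      have e2 := mul_le_mul_of_nonneg_left b s0.le
      linarith
    refine ⟨g _ _ h1 h2, ?_⟩
    have := g dy (-dx) h2 (by rwa [abs_neg])
    rwa [mul_neg, ← sub_eq_add_neg] at this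
  · exact ⟨p, q, ⟨hp, hq, h⟩, fun dx dy h1 h2 => ⟨by linarith, by linarith⟩⟩

theorem rd_all {p q r : ℝ} (h : p ^ 2 + q ^ 2 = 1) (r0 : 0 < r) (r1 : r < 1) :
    ∃ c s, Un c s ∧ ∀ dx dy : ℝ, |p * dx + q * dy| ≤ r / 2 →
      |p * dy - q * dx| ≤ r / 2 → |c * dx + s * dy| < 1 / 2 ∧ |c * dy - s * dx| < 1 / 2 := by
  have n : ∀ {u v : ℝ}, |u| ≤ r / 2 → v = u ∨ v = -u → |v| ≤ r / 2 := by
    rintro u v a (rfl | rfl)
    · exact a
    · rwa [abs_neg]
  by_cases h1 : 0 < p ∧ 0 ≤ q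
  · exact rd_one h1.1 h1.2 h r0 r1
  by_cases h2 : 0 < -q ∧ 0 ≤ p
  · obtain ⟨c, s, u, k⟩ := rd_one h2.1 h2.2 (by linarith) r0 r1
    exact ⟨c, s, u, fun dx dy a b => k dx dy (n b (Or.inl (by ring))) (n a (Or.inr (by ring)))⟩
  by_cases h3 : 0 < -p ∧ 0 ≤ -q
  · obtain ⟨c, s, u, k⟩ := rd_one h3.1 h3.2 (by linarith) r0 r1
    exact ⟨c, s, u, fun dx dy a b => k dx dy (n a (Or.inr (by ring))) (n b (Or.inr (by ring)))⟩
  have h4 : 0 < q ∧ 0 ≤ -p := by
    simp only [not_and, not_le] at h1 h2 h3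
    rcases lt_trichotomy p 0 with a | a | a
    · exact ⟨by linarith [h3 (by linarith)], by linarith⟩
    · subst a
      refine ⟨?_, by simp⟩
      rcases lt_trichotomy q 0 with b | b | b
      · exact absurd (h2 (by linarith)) (lt_irrefl _)
      · subst b
        norm_num at h
      · exact b
    · linarith [h2 (by linarith [h1 a])]
  obtain ⟨c, s, u, k⟩ := rd_one h4.1 h4.2 (by linarith) r0 r1
  exact ⟨c, s, u, fun dx dy a b => k dx dy (n b (Or.inr (by ring))) (n a (Or.inl (by ring)))⟩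

theorem redS : RedS := by
  intro n N ε A ω hn hε hω h
  have n0 : (0 : ℝ) < n := by exact_mod_cast hn
  have n1 : (0 : ℝ) < n + ε := by linarith
  obtain ⟨r, hr⟩ : ∃ r : ℝ, r = n / (n + ε) := ⟨_, rfl⟩
  have r0 : 0 < r := hr ▸ div_pos n0 n1
  have r1 : r < 1 := hr ▸ (div_lt_one n1).2 (by linarith)
  have r2 : (n + ε) * r = n := by rw [hr]; field_simp
  have u : ∀ k, (ω k).re ^ 2 + (ω k).im ^ 2 = 1 := fun k => by
    have := Complex.sq_norm (ω k)
    rw [hω k, Complex.normSq_apply] at this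
    linarith
  choose c s hu hk using fun k => rd_all (u k) r0 r1
  refine ⟨fun k => r * ((A k).re + ((ω k).re - (ω k).im) / 2),
    fun k => r * ((A k).im + ((ω k).re + (ω k).im) / 2), c, s, hu, fun a ha b hb => ?_⟩
  have m : ∀ a ∈ Icc (0 : ℝ) n, a / r ∈ Icc (0 : ℝ) (n + ε) := fun a ha =>
    ⟨div_nonneg ha.1 r0.le, (div_le_iff₀ r0).2 (ha.2.trans_eq r2.symm)⟩
  obtain ⟨k, σ, hσ, τ, hτ, e⟩ := h _ (m a ha) _ (m b hb)
  have e1 := congrArg Complex.re e
  have e2 := congrArg Complex.im e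
  simp only [Complex.add_re, Complex.add_im, Complex.mul_re, Complex.mul_im, Complex.ofReal_re,
    Complex.ofReal_im, Complex.I_re, Complex.I_im, mul_zero, mul_one, sub_zero, add_zero,
    zero_add] at e1 e2
  rw [div_eq_iff r0.ne'] at e1 e2
  have g : ∀ t ∈ Icc (0 : ℝ) 1, |r * (t - 1 / 2)| ≤ r / 2 := fun t ht => by
    rw [abs_le]
    constructor <;> nlinarith [ht.1, ht.2]
  have := hk k (a - r * ((A k).re + ((ω k).re - (ω k).im) / 2))
    (b - r * ((A k).im + ((ω k).re + (ω k).im) / 2))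
    (by
      refine le_of_eq_of_le (congrArg _ ?_) (g σ hσ)
      rw [e1, e2]
      linear_combination r * (σ - 1 / 2) * u k)
    (by
      refine le_of_eq_of_le (congrArg _ ?_) (g τ hτ)
      rw [e1, e2]
      linear_combination r * (τ - 1 / 2) * u k)
  refine ⟨k, ?_⟩
  simp only [Sq, mem_ofPred_eq, (hu k).2.2]
  exact this

end Pool.Agent.MP_c59ecb_co.al
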