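import Pool.Agent.MP_c59ecb_co.al.Spec

/-! A bounded set of centres suffices. -/

set_option autoImplicit false

namespace Pool.Agent.MP_c59ecb_co.al

open MeasureTheory Set

theorem sh_un {c s : ℝ} (h : Un c s) : Un s c := ⟨h.2.1, h.1, by linarith [h.2.2]⟩

theorem sh_swap {E F : Set (ℝ × ℝ)} (h : ∀ a b, (a, b) ∈ E ↔ (b, a) ∈ F) : ar E = ar F := by
  have e : E = Prod.swap ⁻¹' F := by
    ext ⟨a, b⟩
    exact h a b
  unfold ar Measure.real
  rw [e, Measure.volume_eq_prod, (Measure.measurePreserving_swap (μ := volume)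
    (ν := volume)).measure_preimage_emb MeasurableEquiv.prodComm.measurableEmbedding]

theorem sh_qi {x y c s : ℝ} (h : QI x y c s) : QI y x s c := by
  intro m
  have e1 : ar (Sq y x s c \ Ioi 0 ×ˢ Ioi 0) = ar (Sq x y c s \ Ioi 0 ×ˢ Ioi 0) :=
    sh_swap fun a b => by simp only [mem_sdiff, mem_prod, sq_swap x y c s a b, and_comm]
  have e2 : ar (Sq y x s c ∩ St ×ˢ Ioi 0) = ar (Sq x y c s ∩ Ioi 0 ×ˢ St) :=
    sh_swap fun a b => by
      simp only [mem_inter_iff, mem_prod, sq_swap x y c s a b]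
      tauto
  have e3 : ar (Sq y x s c ∩ Ioi 0 ×ˢ St) = ar (Sq x y c s ∩ St ×ˢ Ioi 0) :=
    sh_swap fun a b => by
      simp only [mem_inter_iff, mem_prod, sq_swap x y c s a b]
      tauto
  have := h m
  unfold Wt at this ⊢
  linarith

theorem sh_hs {T : Set ℝ} (h : ∀ t ∈ T, t < 0 ∨ 33 / 50 < t) : hs T = 0 := by
  have : ∀ e : ℝ, e ≤ 33 / 50 → T ∩ Icc 0 e = ∅ := fun e he =>
    eq_empty_of_forall_notMem fun t ht => by
      rcases h t ht.1 with k | k <;> linarith [ht.2.1, ht.2.2]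
  unfold hs
  rw [this _ (by norm_num), this _ le_rfl]
  simp

theorem sh_ls {E : Set (ℝ × ℝ)} (h : ∀ t b, 0 ≤ b → (t, b) ∈ E → t < 0 ∨ 33 / 50 < t) (m : ℕ) :
    ls E m = 0 :=
  Finset.sum_eq_zero fun k _ => sh_hs fun t ht => h t k (Nat.cast_nonneg k) ht

theorem sh_neg {x y c s : ℝ} (h : Un c s) (hx : x ≤ -1) : QI x y c s := by
  intro m
  have := h.sum_lt
  rw [sh_ls (fun t b _ k => Or.inl (by linarith [(sq_sub h.1 h.2.1 k).1.2])),
    sh_ls (fun t b hb k => Or.inl (by linarith [(sq_sub h.2.1 h.1 k).2.2])), add_zero]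
  exact wt_nonneg _

theorem sh_wt {x y c s : ℝ} (h : Un c s) (hy : 8 / 5 ≤ y) : Wt (Sq x y c s) =
    ar (Sq x y c s ∩ Iic 0 ×ˢ univ) + 11 / 25 * ar (Sq x y c s ∩ St ×ˢ univ) := by
  have k : ∀ z ∈ Sq x y c s, 17 / 20 < z.2 := fun z hz => by
    linarith [(sq_sub h.1 h.2.1 hz).2.1, h.sum_lt]
  have e1 : Sq x y c s \ Ioi 0 ×ˢ Ioi 0 = Sq x y c s ∩ Iic 0 ×ˢ univ := by
    ext z
    refine and_congr_right fun hz => ?_
    have : 0 < z.2 := by linarith [k z hz]
    simp [this]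
  have e2 : Sq x y c s ∩ St ×ˢ Ioi 0 = Sq x y c s ∩ St ×ˢ univ := by
    ext z
    refine and_congr_right fun hz => ?_
    have : 0 < z.2 := by linarith [k z hz]
    simp [this]
  have e3 : Sq x y c s ∩ Ioi 0 ×ˢ St = ∅ :=
    eq_empty_of_forall_notMem fun z hz => (k z hz.1).not_ge hz.2.2.2
  unfold Wt
  rw [e1, e2, e3]
  simp [ar]

theorem sh_mem (x y c s a b : ℝ) : (a, b + 1) ∈ Sq x (y + 1) c s ↔ (a, b) ∈ Sq x y c s := by
  simp only [Sq, mem_ofPred_eq, add_sub_add_right_eq_sub]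

theorem sh_tr (x y c s : ℝ) (A : Set ℝ) :
    ar (Sq x (y + 1) c s ∩ A ×ˢ univ) = ar (Sq x y c s ∩ A ×ˢ univ) := by
  have e : Sq x y c s ∩ A ×ˢ univ =
      (fun z => z + ((0, 1) : ℝ × ℝ)) ⁻¹' (Sq x (y + 1) c s ∩ A ×ˢ univ) := by
    ext ⟨a, b⟩
    simp only [mem_preimage, Prod.mk_add_mk, add_zero, mem_inter_iff, sh_mem, mem_prod, mem_univ]
  unfold ar Measure.real
  rw [e, measure_preimage_add_right]

theorem sh_up {x y c s : ℝ} (h : Un c s) (hy : 8 / 5 ≤ y) (q : QI x y c s) :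
    QI x (y + 1) c s := by
  intro m
  have := h.sum_lt
  rw [sh_ls (E := Sq (y + 1) x s c)
    (fun t b _ k => Or.inr (by linarith [(sq_sub h.2.1 h.1 k).1.1])), add_zero]
  cases m with
  | zero => exact (show ls _ 0 = 0 from rfl).trans_le (wt_nonneg _)
  | succ m =>
    have e : ls (Sq x (y + 1) c s) (m + 1) = ls (Sq x y c s) m := by
      unfold ls
      rw [Finset.sum_range_succ', sh_hs (T := {t | (t, ((0 : ℕ) : ℝ)) ∈ Sq x (y + 1) c s})
        fun t k => Or.inl (by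
          have := (sq_sub h.1 h.2.1 k).2.1
          simp only [Nat.cast_zero] at this
          linarith), add_zero]
      simp only [Nat.cast_succ, sh_mem]
    have p : 0 ≤ ls (Sq y x s c) m := Finset.sum_nonneg fun _ _ => hs_nonneg _
    have q' := q m
    rw [e, sh_wt h (by linarith), sh_tr, sh_tr, ← sh_wt h hy]
    linarith

theorem sh_ext {P : ℝ → Prop} (h1 : ∀ y, y ≤ 13 / 5 → P y) (h2 : ∀ y, 8 / 5 ≤ y → P y → P (y + 1))
    (y : ℝ) : P y := by
  have k : ∀ n : ℕ, ∀ y : ℝ, y ≤ 13 / 5 + n → P y := by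
    intro n
    induction n with
    | zero => exact fun y hy => h1 y (by simpa using hy)
    | succ n ih =>
      intro y hy
      rcases le_total y (13 / 5) with c | c
      · exact h1 y c
      · have := h2 (y - 1) (by linarith) (ih _ (by push_cast at hy; linarith))
        rwa [sub_add_cancel] at this
  obtain ⟨n, hn⟩ := exists_nat_ge y
  exact k n y (by linarith)

theorem shiftS : ShiftS := by
  intro c s h H x y
  refine sh_ext (P := fun x => QI x y c s) (fun x hx => ?_)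
    (fun x hx q => sh_qi (sh_up (sh_un h) hx (sh_qi q))) x
  refine sh_ext (P := fun y => QI x y c s) (fun y hy => ?_) (fun y hy q => sh_up h hy q) y
  rcases le_total x (-1) with a | a
  · exact sh_neg h a
  · rcases le_total y (-1) with b | b
    · exact sh_qi (sh_neg (sh_un h) b)
    · exact H x y a hx b hy

end Pool.Agent.MP_c59ecb_co.al
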