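import Pool.Agent.MP_c59ecb_co.al.Spec

/-! The test of a range of angles is sound. -/

set_option autoImplicit false

namespace Pool.Agent.MP_c59ecb_co.al

open MeasureTheory Set

theorem sl_abs {α γ P D Q R w : ℝ} (hP : 0 < P) (hQ : 0 < Q) (h1 : |α| < Q / 2) (h2 : |γ| < Q / 2)
    (h3 : P + D ≤ R) (h4 : P - D ≤ R) (e : Q * w = α * P + γ * D) : |w| < R / 2 := by
  have k1 : |Q * w| ≤ |α| * P + |γ| * |D| := by
    rw [e]
    refine (abs_add_le _ _).trans_eq ?_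
    rw [abs_mul, abs_mul, abs_of_pos hP]
  have k2 : |D| ≤ R - P := abs_le.2 ⟨by linarith, by linarith⟩
  have k3 := mul_lt_mul_of_pos_right h1 hP
  have k4 : |γ| * |D| ≤ Q / 2 * (R - P) := mul_le_mul h2.le k2 (abs_nonneg _) (by linarith)
  rw [abs_mul, abs_of_pos hQ] at k1
  refine lt_of_mul_lt_mul_left (a := Q) ?_ hQ.le
  linarith

theorem sl_sub {x y C S C' S' : ℝ} (hC : 0 < C) (hS : 0 < S) (hC' : 0 < C') (hS' : 0 < S')
    (h1 : C * C' + S * S' + (S * C' - C * S') ≤ C' ^ 2 + S' ^ 2)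
    (h2 : C * C' + S * S' - (S * C' - C * S') ≤ C' ^ 2 + S' ^ 2) : Sq x y C S ⊆ Sq x y C' S' := by
  rintro z ⟨k1, k2⟩
  refine ⟨sl_abs (P := C * C' + S * S') (D := -(S * C' - C * S')) (by positivity) (by positivity)
    k1 k2 (by linarith) (by linarith) (by ring),
    sl_abs (P := C * C' + S * S') (D := S * C' - C * S') (by positivity) (by positivity)
    k2 k1 h1 h2 (by ring)⟩

theorem sl_fin {c s t w R : ℝ} (h : Un c s) (e : s = t * c) (hR : 0 ≤ R)
    (k : w ^ 2 ≤ R ^ 2 * (1 + t ^ 2)) : w * c ≤ R := by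
  obtain ⟨h1, -, h3⟩ := h
  refine le_trans (le_abs_self _) (abs_le_of_sq_le_sq ?_ hR)
  have k2 := mul_le_mul_of_nonneg_right k (sq_nonneg c)
  have k3 : (1 + t ^ 2) * c ^ 2 = 1 := by rw [e] at h3; linear_combination h3
  rw [mul_assoc, k3, mul_one] at k2
  rwa [mul_pow]

theorem sl_one {c s t u v a b R : ℝ} (h : Un c s) (e : s = t * c) (hu : u ≤ t) (hv : t ≤ v)
    (hR : 0 ≤ R) (hb : R ≤ b) (h0 : (a + u * b) ^ 2 ≤ R ^ 2 * (1 + u ^ 2))
    (h1 : (a + v * b) ^ 2 ≤ R ^ 2 * (1 + v ^ 2)) : a * c + b * s ≤ R := by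
  have k : (a + t * b) ^ 2 ≤ R ^ 2 * (1 + t ^ 2) := by
    rcases (hu.trans hv).eq_or_lt with e2 | l
    · rwa [le_antisymm (hv.trans_eq e2.symm) hu]
    · have k1 := mul_nonneg (sub_nonneg.2 hv) (sub_nonneg.2 h0)
      have k2 := mul_nonneg (sub_nonneg.2 hu) (sub_nonneg.2 h1)
      have k3 := mul_nonneg (mul_nonneg (mul_nonneg
        (sub_nonneg.2 (pow_le_pow_left₀ hR hb 2)) (sub_nonneg.2 hu)) (sub_nonneg.2 hv))
        (sub_nonneg.2 l.le)
      refine sub_nonneg.1 (nonneg_of_mul_nonneg_right (a := v - u) ?_ (sub_pos.2 l))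
      refine (add_nonneg (add_nonneg k1 k2) k3).trans_eq ?_
      ring
  refine le_trans (le_of_eq ?_) (sl_fin h e hR k)
  rw [e]
  ring

theorem sl_two {c s t u a b R : ℝ} (h : Un c s) (e : s = t * c) (h0 : 0 ≤ u) (hu : u ≤ t)
    (hR : 0 ≤ R) (ha : 0 ≤ a) (h1 : (b - u * a) ^ 2 ≤ R ^ 2 * (1 + u ^ 2)) :
    b * c - a * s ≤ R := by
  have k : (b - u * a) ^ 2 ≤ R ^ 2 * (1 + t ^ 2) := h1.trans (by gcongr)
  refine le_trans ?_ (sl_fin h e hR k)
  have := mul_le_mul_of_nonneg_left (mul_le_mul_of_nonneg_right hu h.1.le) ha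
  rw [e]
  linarith

theorem sl_three {c s t v f : ℝ} (h : Un c s) (e : s = t * c) (h0 : 0 ≤ t) (hv : t ≤ v)
    (h1 : v ≤ 1) (h2 : f ^ 2 * (1 + v ^ 2) ≤ (1 - v) ^ 2) : f ≤ c - s := by
  obtain ⟨k1, -, k3⟩ := h
  have k4 : (1 + t ^ 2) * c ^ 2 = 1 := by rw [e] at k3; linear_combination k3
  have k5 : f ^ 2 * (1 + t ^ 2) ≤ (1 - t) ^ 2 :=
    le_trans (by gcongr) (h2.trans (pow_le_pow_left₀ (by linarith) (by linarith) 2))
  have k6 := mul_le_mul_of_nonneg_right k5 (sq_nonneg c)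
  rw [mul_assoc, k4, mul_one, ← mul_pow] at k6
  have k7 : 0 ≤ (1 - t) * c := mul_nonneg (by linarith) k1.le
  refine (le_abs_self _).trans ((abs_le_of_sq_le_sq k6 k7).trans_eq ?_)
  rw [e]
  ring

theorem slabS : SlabS := by
  intro t0 t1 C S Cu Su fl c s h hu h0 h1
  obtain ⟨a1, a2, a3, a4, a5, a6, a7, b1, b2, b3, b4, b5, b6, b7⟩ := of_decide_eq_true h
  have hc := hu.1
  have t01 : t0 ≤ t1 := by exact_mod_cast le_of_mul_le_mul_right (h0.trans h1) hc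
  have n1 : t0 * (C - S) ≤ 4000 * (C + S) := Nat.mul_le_mul (t01.trans a5) (by omega)
  have n2 : t0 * (Cu - Su) ≤ 4000 * (Cu + Su) := Nat.mul_le_mul (t01.trans a5) (by omega)
  have e : s = s / c * c := (div_mul_cancel₀ s hc.ne').symm
  have u0 : (t0 : ℝ) / 4000 ≤ s / c := by rw [div_le_div_iff₀ (by norm_num) hc]; linarith
  have u1 : s / c ≤ (t1 : ℝ) / 4000 := by rw [div_le_div_iff₀ hc (by norm_num)]; linarith
  have p1 : (0 : ℝ) < S := by exact_mod_cast a1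
  have p2 : (S : ℝ) ≤ C := by exact_mod_cast a2
  have p3 : (0 : ℝ) < Su := by exact_mod_cast a3
  have p4 : (Su : ℝ) ≤ Cu := by exact_mod_cast a4
  have p5 : (t1 : ℝ) ≤ 4000 := by exact_mod_cast a5
  have p6 : (12800 : ℝ) ≤ C + S := by exact_mod_cast a6
  have p7 : (Cu : ℝ) ^ 2 + Su ^ 2 ≤ 12800 * (Cu + Su) := by exact_mod_cast a7
  have p8 : (0 : ℝ) < C := p1.trans_le p2
  have p9 : (0 : ℝ) < Cu := p3.trans_le p4
  have c1 := (Nat.cast_le (α := ℝ)).2 b1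
  have c2 := (Nat.cast_le (α := ℝ)).2 b2
  have c3 := (Nat.cast_le (α := ℝ)).2 b3
  have c4 := (Nat.cast_le (α := ℝ)).2 b4
  have c5 := (Nat.cast_le (α := ℝ)).2 b5
  have c6 := (Nat.cast_le (α := ℝ)).2 b6
  have c7 := (Nat.cast_le (α := ℝ)).2 b7
  push_cast [Nat.cast_sub a2, Nat.cast_sub a4, Nat.cast_sub a5, Nat.cast_sub n1,
    Nat.cast_sub n2] at c1 c2 c3 c4 c5 c6 c7
  have d1 := sl_one (a := ((C : ℝ) - S) / 12800) (b := ((C : ℝ) + S) / 12800) hu e u0 u1 zero_le_one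
    (by linarith only [p6]) (by linarith only [c1]) (by linarith only [c2])
  have d2 := sl_two (a := ((C : ℝ) - S) / 12800) (b := ((C : ℝ) + S) / 12800) hu e (by positivity)
    u0 zero_le_one (by linarith only [p2]) (by linarith only [c3])
  have d3 := sl_one (a := ((Cu : ℝ) - Su) / 12800) (b := ((Cu : ℝ) + Su) / 12800)
    (R := ((Cu : ℝ) ^ 2 + Su ^ 2) / 12800 ^ 2) hu e u0 u1 (by positivity)
    (by linarith only [p7]) (by linarith only [c4]) (by linarith only [c5])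
  have d4 := sl_two (a := ((Cu : ℝ) - Su) / 12800) (b := ((Cu : ℝ) + Su) / 12800)
    (R := ((Cu : ℝ) ^ 2 + Su ^ 2) / 12800 ^ 2) hu e (by positivity)
    u0 (by positivity) (by linarith only [p4]) (by linarith only [c6])
  have d5 := sl_three (f := 2 * (fl : ℝ) / 12800) hu e (div_pos hu.2.1 hc).le u1
    (by linarith only [p5]) (by linarith only [c7])
  have q := hu.2.2
  clear c1 c2 c3 c4 c5 c6 c7 b1 b2 b3 b4 b5 b6 b7 h n1 n2
  refine ⟨by omega, a1, by omega, a3, d5, fun x y => ⟨?_, ?_⟩⟩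
  · exact sl_sub (by positivity) (by positivity) hc hu.2.1 (by linarith only [d2, q])
      (by linarith only [d1, q])
  · exact sl_sub hc hu.2.1 (by positivity) (by positivity) (by linarith only [d3])
      (by linarith only [d4])

end Pool.Agent.MP_c59ecb_co.al
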