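import Pool.Agent.MP_c59ecb_co.al.Spec

/-! The inequalities for small angles. -/

set_option autoImplicit false

namespace Pool.Agent.MP_c59ecb_co.al

open MeasureTheory Set

theorem sa_pos1 {t : ℝ} (h : 0 ≤ t) : pos t = t := max_eq_left h

theorem sa_pos0 {t : ℝ} (h : t ≤ 0) : pos t = 0 := max_eq_right h

theorem sa_g0 {c s u : ℝ} (hs : 0 < s) (hc : s ≤ c) (h : u ≤ 0) : Gn c s u = 0 := by
  unfold Gn
  rw [sa_pos0 h, sa_pos0 (t := u - (c + s)) (by linarith), sa_pos0 (t := u - s) (by linarith),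
    sa_pos0 (t := u - c) (by linarith)]
  ring

theorem sa_g1 {c s u : ℝ} (hs : 0 < s) (hc : s ≤ c) (h : 0 ≤ u) (k : u ≤ s) :
    Gn c s u = u ^ 2 := by
  unfold Gn
  rw [sa_pos1 h, sa_pos0 (t := u - (c + s)) (by linarith), sa_pos0 (t := u - s) (by linarith),
    sa_pos0 (t := u - c) (by linarith)]
  ring

theorem sa_g2 {c s u : ℝ} (hs : 0 < s) (h : s ≤ u) (k : u ≤ c) :
    Gn c s u = s * (2 * u - s) := by
  unfold Gn
  rw [sa_pos1 (t := u) (by linarith), sa_pos0 (t := u - (c + s)) (by linarith),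
    sa_pos1 (t := u - s) (by linarith), sa_pos0 (t := u - c) (by linarith)]
  ring

theorem sa_g3 {c s u : ℝ} (hs : 0 < s) (hc : s ≤ c) (h : c ≤ u) :
    Gn c s u = 2 * c * s - pos (c + s - u) ^ 2 := by
  unfold Gn
  rw [sa_pos1 (t := u) (by linarith), sa_pos1 (t := u - s) (by linarith),
    sa_pos1 (t := u - c) (by linarith)]
  rcases le_total u (c + s) with k | k
  · rw [sa_pos0 (t := u - (c + s)) (by linarith), sa_pos1 (t := c + s - u) (by linarith)]
    ring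
  · rw [sa_pos1 (t := u - (c + s)) (by linarith), sa_pos0 (t := c + s - u) (by linarith)]
    ring

theorem sa_g4 {c s u u' : ℝ} (hs : 0 < s) (hc : s ≤ c) (h : c ≤ u) (k : u ≤ u') :
    Gn c s u ≤ Gn c s u' := by
  rw [sa_g3 hs hc h, sa_g3 hs hc (h.trans k)]
  have h1 : pos (c + s - u') ≤ pos (c + s - u) := max_le_max (by linarith) le_rfl
  have h2 : 0 ≤ pos (c + s - u') := le_max_right _ _
  have := pow_le_pow_left₀ h2 h1 2
  linarith

theorem sa_g5 {c s u : ℝ} (hs : 0 < s) (hc : s ≤ c) (h : c ≤ u) :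
    s * (2 * c - s) ≤ Gn c s u :=
  (sa_g2 hs hc le_rfl).symm.trans_le (sa_g4 hs hc le_rfl h)

theorem sa_le {c s m N : ℝ} (hc : 0 < c) (h1 : c ≤ 1) (hs : 0 < s) (hm : 0 ≤ m)
    (h : 2 * s * m ≤ N) : m ≤ N / (2 * c * s) := by
  rw [le_div_iff₀ (by positivity)]
  have : c * (s * m) ≤ 1 * (s * m) := mul_le_mul_of_nonneg_right h1 (by positivity)
  linarith

theorem sa_un {c s : ℝ} (h : Un c s) (k : 50 * s ≤ 7 * c) :
    99 / 100 ≤ c ∧ c ≤ 1 ∧ s ≤ 7 / 50 := by
  obtain ⟨h1, h2, h3⟩ := h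
  have a : c ≤ 1 := by nlinarith
  have b : s ≤ 7 / 50 := by linarith
  exact ⟨by nlinarith, a, b⟩

theorem sa_rm {c s : ℝ} (x : ℝ) (h : Un c s) (k : 50 * s ≤ 7 * c) :
    (33 / 50 ≤ x → 0 ≤ Rm c s x) ∧
    (9 / 25 ≤ x → x ≤ 33 / 50 → 11 / 25 * (17 / 20 - x - s / 2) ≤ Rm c s x) ∧
    (7 / 25 - s ≤ x → x ≤ 9 / 25 → 11 / 25 * (17 / 20 - x - s) ≤ Rm c s x) ∧
    (0 ≤ x → x ≤ 7 / 25 - s → 627 / 2500 ≤ Rm c s x) ∧
    (-s ≤ x → x ≤ 0 → 627 / 2500 ≤ Rm c s x ∧
      627 / 2500 * (1 + s ^ 2 / 2) - 9 / 20 * x - 81 / 400 * s ≤ Rm c s x) ∧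
    (x ≤ -s → 627 / 2500 + 23 / 100 * s ≤ Rm c s x) := by
  obtain ⟨a1, a2, a3⟩ := sa_un h k
  obtain ⟨hc, hs, e⟩ := h
  have sc : s ≤ c := by linarith
  unfold Rm
  refine ⟨fun h1 => ?_, fun h1 h2 => ?_, fun h1 h2 => ?_, fun h1 h2 => ?_, fun h1 h2 => ?_,
    fun h1 => ?_⟩
  · refine sa_le hc a2 hs le_rfl ?_
    rw [sa_g0 (u := 7 / 25 - x) hs sc (by linarith), sa_g0 (u := -x) hs sc (by linarith)]
    rcases le_total (17 / 20 - x) 0 with h2 | h2
    · rw [sa_g0 hs sc h2]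
      linarith
    rcases le_total (17 / 20 - x) s with h3 | h3
    · rw [sa_g1 hs sc h2 h3]
      nlinarith [sq_nonneg (17 / 20 - x)]
    · rw [sa_g2 hs h3 (by linarith)]
      nlinarith
  · refine sa_le hc a2 hs (by linarith) ?_
    rw [sa_g0 (u := 7 / 25 - x) hs sc (by linarith), sa_g0 (u := -x) hs sc (by linarith),
      sa_g2 (u := 17 / 20 - x) hs (by linarith) (by linarith)]
    exact le_of_eq (by ring)
  · refine sa_le hc a2 hs (by linarith) ?_
    rw [sa_g0 (u := -x) hs sc (by linarith),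
      sa_g2 (u := 17 / 20 - x) hs (by linarith) (by linarith)]
    have : Gn c s (7 / 25 - x) ≤ s ^ 2 := by
      rcases le_total (7 / 25 - x) 0 with h3 | h3
      · rw [sa_g0 hs sc h3]
        positivity
      · rw [sa_g1 hs sc h3 (by linarith)]
        exact pow_le_pow_left₀ h3 (by linarith) 2
    nlinarith
  · refine sa_le hc a2 hs (by norm_num) ?_
    rw [sa_g0 (u := -x) hs sc (by linarith),
      sa_g2 (u := 17 / 20 - x) hs (by linarith) (by linarith),
      sa_g2 (u := 7 / 25 - x) hs (by linarith) (by linarith)]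
    exact le_of_eq (by ring)
  · rw [sa_g1 (u := -x) hs sc (by linarith) (by linarith),
      sa_g2 (u := 17 / 20 - x) hs (by linarith) (by linarith),
      sa_g2 (u := 7 / 25 - x) hs (by linarith) (by linarith)]
    refine ⟨sa_le hc a2 hs (by norm_num) (by nlinarith [sq_nonneg x]), ?_⟩
    rw [le_div_iff₀ (by positivity)]
    have b1 : c ≤ 1 - s ^ 2 / 2 := by nlinarith [sq_nonneg (c - 1)]
    have b2 : c * (1 + s ^ 2 / 2) ≤ 1 := by nlinarith [sq_nonneg (s ^ 2), sq_nonneg s]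
    have b3 : s * (c * (1 + s ^ 2 / 2)) ≤ s * 1 := mul_le_mul_of_nonneg_left b2 hs.le
    have b4 : 2 * s * (-(9 / 20) * x - 81 / 400 * s) ≤ x ^ 2 / 2 := by
      nlinarith [sq_nonneg (x + 9 / 10 * s)]
    have b5 := mul_le_mul_of_nonneg_left b4 hc.le
    have b6 : c * (x ^ 2 / 2) ≤ 1 * (x ^ 2 / 2) := mul_le_mul_of_nonneg_right a2 (by positivity)
    linarith
  · refine sa_le hc a2 hs (by linarith) ?_
    have m := fun {p q : ℝ} (h : p ≤ q) => mul_le_mul_of_nonneg_left h hs.le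
    rcases le_total (17 / 20 - x) c with h2 | h2
    · rw [sa_g2 (u := -x) hs (by linarith) (by linarith),
        sa_g2 (u := 17 / 20 - x) hs (by linarith) h2,
        sa_g2 (u := 7 / 25 - x) hs (by linarith) (by linarith)]
      nlinarith [m h1, sq_nonneg s]
    rcases le_total (7 / 25 - x) c with h3 | h3
    · have := sa_g5 hs sc h2
      rw [sa_g2 (u := -x) hs (by linarith) (by linarith),
        sa_g2 (u := 7 / 25 - x) hs (by linarith) h3]
      linarith [m h2, m a1, m a3]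
    · have b1 := sa_g4 (u' := 17 / 20 - x) hs sc h3 (by linarith)
      rcases le_total (-x) c with h4 | h4
      · rw [sa_g2 (u := -x) hs (by linarith) h4]
        linarith [m h3, m a1, m a3]
      · have := sa_g5 hs sc h4
        linarith [m a1, m a3]

theorem sa_c1 (t : ℝ) : 0 ≤ cumR t ∧ cumR t ≤ 627 / 2500 ∧ (33 / 50 ≤ t → 627 / 2500 ≤ cumR t) ∧
    (t ≤ 9 / 25 → 9 / 20 * t ≤ cumR t) ∧
    (9 / 25 ≤ t → t ≤ 33 / 50 → 693 / 12500 + 37 / 125 * t ≤ cumR t) := by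
  simp only [cumR, pos, max_def, min_def]
  refine ⟨?_, ?_, fun _ => ?_, fun _ => ?_, fun _ _ => ?_⟩ <;> split_ifs <;> linarith

theorem sa_c2 {a b : ℝ} (h : a ≤ b) : cumR b - cumR a ≤ 9 / 20 * (b - a) ∧
    (9 / 25 ≤ a → cumR b - cumR a ≤ 37 / 125 * (b - a)) := by
  simp only [cumR, pos, max_def, min_def]
  refine ⟨?_, fun _ => ?_⟩ <;> split_ifs <;> linarith

theorem sa_two {c s x p w τ : ℝ} (h : Un c s) (k : 50 * s ≤ 7 * c) (hp : 0 ≤ p) (hw : 0 ≤ w)
    (hτ : 0 ≤ τ) (t1 : τ ≤ 101 / 200 * s) (w1 : w ≤ 7 / 50 * s)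
    (w2 : p ≤ 1 / 2 → w ≤ 13 / 25 * s ^ 2) :
    cumR (x + s + p) - cumR (x + s - w) + (cumR (x + c + s) - cumR (x + s + p - τ)) ≤
      Rm c s x := by
  obtain ⟨a1, a2, a3⟩ := sa_un h k
  obtain ⟨r1, r2, r3, r4, r5, r6⟩ := sa_rm x h k
  have hs := h.2.1
  obtain ⟨d1, d2⟩ := sa_c2 (a := x + s + p - τ) (b := x + s + p) (by linarith)
  obtain ⟨-, u1, -⟩ := sa_c1 (x + c + s)
  obtain ⟨l0, -, -, l1, -⟩ := sa_c1 (x + s - w)
  obtain ⟨-, -, x1, x2, x3⟩ := sa_c1 x
  have m1 : cumR x ≤ cumR (x + s - w) := cumR_mono (by linarith)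
  rcases le_total (33 / 50) x with h1 | h1
  · have := (sa_c1 (x + s + p - τ)).2.2.1 (by linarith)
    have := (sa_c1 (x + s + p)).2.1
    linarith [r1 h1, x1 h1]
  rcases le_total (9 / 25) x with h2 | h2
  · linarith [r2 h2 h1, x3 h2 h1, d2 (by linarith)]
  rcases le_total (7 / 25 - s) x with h3 | h3
  · linarith [r3 h3 h2, x2 h2]
  rcases le_total 0 x with h4 | h4
  · linarith [r4 h4 h3, l1 (by linarith)]
  rcases le_total (-s) x with h5 | h5
  · have b1 := (r5 h5 h4).2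
    have b2 := l1 (by linarith)
    have b3 : s * s ≤ s * (7 / 50) := mul_le_mul_of_nonneg_left a3 hs.le
    rcases le_total (9 / 25) (x + s + p - τ) with h6 | h6
    · nlinarith [d2 h6, sq_nonneg s]
    · nlinarith [w2 (by linarith)]
  · linarith [r6 h5]

theorem smallA : SmallA := by
  intro c s x h k
  obtain ⟨a1, a2, a3⟩ := sa_un h k
  refine ⟨?_, fun v hv hv1 => ?_⟩
  · obtain ⟨r1, r2, r3, r4, r5, r6⟩ := sa_rm x h k
    have hs := h.2.1
    obtain ⟨-, u1, -⟩ := sa_c1 (x + c + s)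
    obtain ⟨x0, -, x1, x2, x3⟩ := sa_c1 x
    rcases le_total (33 / 50) x with h1 | h1
    · linarith [r1 h1, x1 h1]
    rcases le_total (9 / 25) x with h2 | h2
    · linarith [r2 h2 h1, x3 h2 h1]
    rcases le_total (7 / 25 - s) x with h3 | h3
    · linarith [r3 h3 h2, x2 h2]
    rcases le_total 0 x with h4 | h4
    · linarith [r4 h4 h3]
    rcases le_total (-s) x with h5 | h5
    · linarith [(r5 h5 h4).1]
    · linarith [r6 h5]
  · obtain ⟨hc, hs, e⟩ := id h
    have e1 : x + (c - v) * s / c = x + s - v * s / c := by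
      field_simp
      ring
    have e2 : x + (v + 1 - c) * c / s = x + s + v * c / s - (1 - c) / s := by
      field_simp
      linear_combination -e
    rw [e1, e2]
    refine sa_two h k (by positivity) (by positivity) (div_nonneg (by linarith) hs.le) ?_ ?_
      fun hp => ?_
    · rw [div_le_iff₀ hs]
      nlinarith
    · rw [div_le_iff₀ hc]
      have : v * s ≤ s * s := mul_le_mul_of_nonneg_right (by linarith) hs.le
      have : s * (50 * s) ≤ s * (7 * c) := mul_le_mul_of_nonneg_left k hs.le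
      linarith
    · rw [div_le_iff₀ hs] at hp
      rw [div_le_iff₀ hc]
      have b1 : v * (99 / 100) ≤ v * c := mul_le_mul_of_nonneg_left a1 hv.le
      have b2 : v * s ≤ 51 / 100 * s * s := mul_le_mul_of_nonneg_right (by linarith) hs.le
      have b3 : s ^ 2 * (99 / 100) ≤ s ^ 2 * c := mul_le_mul_of_nonneg_left a1 (by positivity)
      nlinarith [sq_nonneg s]

end Pool.Agent.MP_c59ecb_co.al
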