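import Pool.Agent.MP_c59ecb_co.al.Spec

/-! Small angles: the segments that one square meets. -/

set_option autoImplicit false

namespace Pool.Agent.MP_c59ecb_co.al

open MeasureTheory Set

theorem sb_le {T : Set ℝ} {l r : ℝ} (h : T ⊆ Icc l r) (hl : l ≤ r) : hs T ≤ cumR r - cumR l := by
  refine (hs_le h).trans (le_of_eq ?_)
  exact max_eq_left (sub_nonneg.2 (cumR_mono hl))

theorem sb_hit {c s x y w : ℝ} (hu : Un c s) (h : hs {t | (t, w) ∈ Sq x y c s} ≠ 0) :
    0 < w - y + (c + s) / 2 ∧ w - y + (c + s) / 2 < c + s := by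
  rcases Set.eq_empty_or_nonempty {t | (t, w) ∈ Sq x y c s} with e | ⟨t, ht⟩
  · rw [e] at h
    exact absurd hs_empty h
  · exact (sq_ch hu.1 hu.2.1 ht rfl rfl).2.1

theorem sb_one (h : SmallA) {c s : ℝ} (hu : Un c s) (ha : 50 * s ≤ 7 * c) (x y w : ℝ) :
    hs {t | (t, w) ∈ Sq x y c s} ≤ Rm c s (x - (c + s) / 2) := by
  refine le_trans (sb_le ?_ ?_) (h c s (x - (c + s) / 2) hu ha).1
  · intro t ht
    obtain ⟨⟨h1, h2⟩, -⟩ := sq_ch hu.1 hu.2.1 ht rfl rfl
    exact ⟨by linarith, by linarith⟩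
  · linarith [hu.1, hu.2.1]

theorem sb_two (h : SmallA) {c s : ℝ} (hu : Un c s) (ha : 50 * s ≤ 7 * c) (x y w : ℝ)
    (h0 : 0 < w - y + (c + s) / 2) (h1 : w + 1 - y + (c + s) / 2 < c + s) :
    hs {t | (t, w) ∈ Sq x y c s} + hs {t | (t, w + 1) ∈ Sq x y c s} ≤
      Rm c s (x - (c + s) / 2) := by
  have hc := hu.1
  have hs' := hu.2.1
  obtain ⟨v, hv⟩ : ∃ v, v = w - y + (c + s) / 2 := ⟨_, rfl⟩
  rw [← hv] at h0
  have h2 : v + 1 < c + s := by linarith
  refine le_trans (add_le_add (sb_le ?_ ?_) (sb_le ?_ ?_))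
    ((h c s (x - (c + s) / 2) hu ha).2 v h0 h2)
  · intro t ht
    obtain ⟨-, -, e1, -, e2, -⟩ := sq_ch hc hs' ht rfl hv
    exact ⟨by linarith, by linarith⟩
  · have e1 : (c - v) * s / c ≤ s := by
      rw [div_le_iff₀ hc]
      nlinarith [mul_pos h0 hs']
    have e2 : 0 ≤ v * c / s := by positivity
    linarith
  · intro t ht
    obtain ⟨⟨-, e1⟩, -, -, e2, -⟩ := sq_ch (v := v + 1) hc hs' ht rfl (by linarith)
    exact ⟨by linarith, by linarith⟩
  · have e1 : (v + 1 - c) * c / s ≤ c := by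
      rw [div_le_iff₀ hs']
      nlinarith [mul_pos (sub_pos.2 h2) hc]
    linarith

theorem sb_sum (h : SmallA) {c s : ℝ} (hu : Un c s) (ha : 50 * s ≤ 7 * c) (x y : ℝ) (m : ℕ)
    (g : ℕ → ℝ) (hg : ∀ k l, ∃ z : ℤ, g k = g l + z) (hi : ∀ k l, g k = g l → k = l) :
    ∑ k ∈ Finset.range m, hs {t | (t, g k) ∈ Sq x y c s} ≤ Rm c s (x - (c + s) / 2) := by
  classical
  rw [← Finset.sum_filter_ne_zero]
  generalize hS : (Finset.range m).filter (fun k => hs {t | (t, g k) ∈ Sq x y c s} ≠ 0) = S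
  have hit : ∀ k ∈ S, 0 < g k - y + (c + s) / 2 ∧ g k - y + (c + s) / 2 < c + s := by
    intro k hk
    rw [← hS] at hk
    exact sb_hit hu (Finset.mem_filter.1 hk).2
  rcases S.eq_empty_or_nonempty with e | hne
  · rw [e, Finset.sum_empty]
    exact (hs_nonneg _).trans (sb_one h hu ha x y 0)
  obtain ⟨k0, hk0, hmin⟩ := S.exists_min_image g hne
  have hcase : ∀ k ∈ S, k = k0 ∨ g k = g k0 + 1 := by
    intro k hk
    obtain ⟨z, hz⟩ := hg k k0
    have e1 := hmin k hk
    have e2 := (hit k hk).2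
    have e3 := (hit k0 hk0).1
    have e4 := hu.sum_lt
    have z0 : (0 : ℝ) ≤ z := by linarith
    have z2 : (z : ℝ) < 2 := by linarith
    have z0' : 0 ≤ z := by exact_mod_cast z0
    have z2' : z < 2 := by exact_mod_cast z2
    obtain rfl | rfl : z = 0 ∨ z = 1 := by omega
    · exact Or.inl (hi _ _ (by simpa using hz))
    · exact Or.inr (by simpa using hz)
  by_cases hex : ∃ k1 ∈ S, g k1 = g k0 + 1
  · obtain ⟨k1, hk1, e⟩ := hex
    have hne' : k0 ≠ k1 := by
      rintro rfl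
      linarith
    have hsub : S ⊆ {k0, k1} := by
      intro k hk
      rw [Finset.mem_insert, Finset.mem_singleton]
      exact (hcase k hk).imp id fun e' => hi _ _ (e'.trans e.symm)
    refine (Finset.sum_le_sum_of_subset_of_nonneg hsub fun _ _ _ => hs_nonneg _).trans ?_
    rw [Finset.sum_pair hne', e]
    exact sb_two h hu ha x y (g k0) (hit k0 hk0).1 (e ▸ (hit k1 hk1).2)
  · have hsub : S ⊆ {k0} := by
      intro k hk
      rw [Finset.mem_singleton]
      exact (hcase k hk).resolve_right fun e' => hex ⟨k, hk, e'⟩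
    refine (Finset.sum_le_sum_of_subset_of_nonneg hsub fun _ _ _ => hs_nonneg _).trans ?_
    rw [Finset.sum_singleton]
    exact sb_one h hu ha x y _

theorem smallB (h : SmallA) : SmallB := by
  intro c s x y m hu ha
  constructor
  · exact sb_sum h hu ha x y m (fun k => (k : ℝ))
      (fun k l => ⟨(k : ℤ) - l, by push_cast; ring⟩) (fun k l e => by exact_mod_cast e)
  · have e : ls (Sq x y s c) m =
        ∑ k ∈ Finset.range m, hs {t | (t, 2 * y - (k : ℝ)) ∈ Sq x y c s} := by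
      unfold ls
      simp only [sq_refl x y c s]
    rw [e]
    exact sb_sum h hu ha x y m (fun k => 2 * y - (k : ℝ))
      (fun k l => ⟨(l : ℤ) - k, by push_cast; ring⟩)
      (fun k l e => by exact_mod_cast sub_right_injective e)

theorem smallS (h1 : HalfS) (h2 : BoxS) (h3 : SmallB) : SmallS := by
  intro c s x y hu ha m
  have hc := hu.1
  have hs' := hu.2.1
  have hq := hu.2.2
  have b1 := (h3 c s x y m hu ha).1
  have b2 := (h3 c s y x m hu ha).2
  have b3 := (h2 (Sq x y c s) (Sq x y c s) 0 0 (7 / 25) (17 / 20) (7 / 25) (17 / 20)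
    (sq_meas _ _ _ _) (sq_meas _ _ _ _) (sq_fin hc hs') Subset.rfl le_rfl le_rfl le_rfl le_rfl
    le_rfl le_rfl).2.1
  obtain ⟨-, -, -, a1, a2, -⟩ := h1 x y c s 0 hc hs'
  obtain ⟨a3, a4⟩ := (h1 x y c s (7 / 25) hc hs').2.2.2.2.2 (17 / 20) (by norm_num)
  rw [hq, one_mul] at a1 a2 a3 a4
  have key : ∀ z A B : ℝ, 2 * c * s * A = Gn c s (0 - z + (c + s) / 2) →
      2 * c * s * B = Gn c s (17 / 20 - z + (c + s) / 2) - Gn c s (7 / 25 - z + (c + s) / 2) →
      Rm c s (z - (c + s) / 2) = 11 / 25 * B + A / 2 := by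
    intro z A B e1 e2
    unfold Rm
    rw [show 17 / 20 - (z - (c + s) / 2) = 17 / 20 - z + (c + s) / 2 by ring,
      show 7 / 25 - (z - (c + s) / 2) = 7 / 25 - z + (c + s) / 2 by ring,
      show -(z - (c + s) / 2) = 0 - z + (c + s) / 2 by ring, ← e1, ← e2,
      div_eq_iff (by positivity)]
    ring
  rw [key x _ _ a1 a3] at b1
  rw [key y _ _ a2 a4] at b2
  unfold St at b3
  linarith

end Pool.Agent.MP_c59ecb_co.al
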