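import Pool.Agent.MP_c59ecb_co.al.Spec

/-! The reduction to the corner. -/

set_option autoImplicit false

namespace Pool.Agent.MP_c59ecb_co.al

open MeasureTheory Set

theorem sy_mem (n x y c s a b : ℝ) : (a, b) ∈ Sq x (n - y) s c ↔ (a, n - b) ∈ Sq x y c s := by
  rw [sq_refl]
  simp only [Sq, mem_ofPred_eq]
  rw [show 2 * (n - y) - b - (n - y) = n - b - y by ring]

theorem sy_swap (x y c s : ℝ) {A B : Set ℝ} (hA : MeasurableSet A) (hB : MeasurableSet B) :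
    ar (Sq y x s c ∩ A ×ˢ B) = ar (Sq x y c s ∩ B ×ˢ A) := by
  have h : MeasurePreserving (Prod.swap : ℝ × ℝ → ℝ × ℝ) volume volume :=
    Measure.measurePreserving_swap
  unfold ar Measure.real
  rw [← h.measure_preimage ((sq_meas x y c s).inter (hB.prod hA)).nullMeasurableSet]
  congr 2
  ext ⟨a, b⟩
  simp only [mem_inter_iff, sq_swap x y c s a b, mem_prod, mem_preimage, Prod.swap_prod_mk]
  tauto

theorem sy_flip (n x y c s : ℝ) {A : Set ℝ} (hA : MeasurableSet A) :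
    ar (Sq x (n - y) s c ∩ A ×ˢ Ioo 0 n) = ar (Sq x y c s ∩ A ×ˢ Ioo 0 n) := by
  have h : MeasurePreserving (Prod.map id fun b => n - b : ℝ × ℝ → ℝ × ℝ) volume volume :=
    (MeasurePreserving.id volume).prod (Measure.measurePreserving_sub_left volume n)
  unfold ar Measure.real
  rw [← h.measure_preimage
    ((sq_meas x y c s).inter (hA.prod measurableSet_Ioo)).nullMeasurableSet]
  congr 2
  ext ⟨a, b⟩
  simp only [mem_inter_iff, sy_mem, mem_prod, mem_preimage, Prod.map_apply, id, mem_Ioo]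
  constructor <;> rintro ⟨h1, h2, h3, h4⟩ <;> exact ⟨h1, h2, by linarith, by linarith⟩

theorem sy_lf (n : ℕ) (x y c s : ℝ) : Lf n (Sq x (n - y) s c) = Lf n (Sq x y c s) := by
  unfold Lf
  rw [sy_flip n x y c s (A := St) measurableSet_Ioc]
  congr 1
  unfold ls
  rw [← Finset.sum_range_reflect]
  refine Finset.sum_congr rfl fun k hk => ?_
  have hk : k ≤ n := Nat.lt_succ_iff.1 (Finset.mem_range.1 hk)
  simp only [sy_mem, Nat.add_sub_cancel, Nat.cast_sub hk, sub_sub_cancel]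

theorem sy_mu1 (n : ℕ) (x y c s : ℝ) : mu n y x s c = mu n x y c s := by
  unfold mu
  rw [sy_swap x y c s measurableSet_Ioo measurableSet_Ioo]
  ring

theorem sy_mu2 (n : ℕ) (x y c s : ℝ) : mu n x (n - y) s c = mu n x y c s := by
  unfold mu
  rw [sy_flip n x y c s measurableSet_Ioo, sy_lf, sy_lf, sub_sub_cancel]
  ring

theorem sy_far (n : ℕ) {x y c s : ℝ} (h : Un c s) (hx : 3 / 2 ≤ x) : Lf n (Sq x y c s) ≤ 0 := by
  have h0 : ls (Sq x y c s) (n + 1) = 0 := by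
    refine Finset.sum_eq_zero fun k _ => ?_
    have : ∀ e : ℝ, e ≤ 33 / 50 → {t | (t, (k : ℝ)) ∈ Sq x y c s} ∩ Icc 0 e = ∅ := fun e he => by
      refine eq_empty_of_forall_notMem fun t ht => ?_
      have h1 := (sq_sub h.1 h.2.1 ht.1).1.1
      have h2 := ht.2.2
      have h3 := h.sum_lt
      simp only at h1
      linarith
    unfold hs
    rw [this _ (by norm_num), this _ le_rfl]
    simp
  unfold Lf
  linarith [ar_nonneg (Sq x y c s ∩ St ×ˢ Ioo 0 (n : ℝ))]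

theorem sy_un {c s : ℝ} (h : Un c s) : Un s c := ⟨h.2.1, h.1, by linarith [h.2.2]⟩

theorem sy_main (h : HalfS) {n : ℕ} {x y c s : ℝ} (hn : 3 ≤ n) (u : Un c s) (hx : x ≤ n / 2)
    (hy : y ≤ n / 2) (q : QI x y c s) : mu n x y c s ≤ 1 := by
  have hn' : (3 : ℝ) ≤ n := by exact_mod_cast hn
  have f1 := sy_far n (x := n - x) (y := y) (sy_un u) (by linarith)
  have f2 := sy_far n (x := n - y) (y := x) u (by linarith)
  have lt : ∀ z ∈ Sq x y c s, z.1 < n ∧ z.2 < n := fun z hz => by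
    have h1 := sq_sub u.1 u.2.1 hz
    have h3 := u.sum_lt
    exact ⟨by linarith [h1.1.2], by linarith [h1.2.2]⟩
  have e1 : Sq x y c s ∩ Ioo 0 (n : ℝ) ×ˢ Ioo 0 (n : ℝ) = Sq x y c s ∩ Ioi 0 ×ˢ Ioi 0 :=
    Set.ext fun z => ⟨fun k => ⟨k.1, k.2.1.1, k.2.2.1⟩,
      fun k => ⟨k.1, ⟨k.2.1, (lt z k.1).1⟩, k.2.2, (lt z k.1).2⟩⟩
  have e2 : Sq x y c s ∩ St ×ˢ Ioo 0 (n : ℝ) = Sq x y c s ∩ St ×ˢ Ioi 0 :=
    Set.ext fun z => ⟨fun k => ⟨k.1, k.2.1, k.2.2.1⟩,
      fun k => ⟨k.1, k.2.1, k.2.2, (lt z k.1).2⟩⟩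
  have e3 : Sq x y c s ∩ Ioo 0 (n : ℝ) ×ˢ St = Sq x y c s ∩ Ioi 0 ×ˢ St :=
    Set.ext fun z => ⟨fun k => ⟨k.1, k.2.1.1, k.2.2⟩,
      fun k => ⟨k.1, ⟨k.2.1, (lt z k.1).1⟩, k.2.2⟩⟩
  have e4 : ar (Sq x y c s ∩ Ioi 0 ×ˢ Ioi 0) + ar (Sq x y c s \ Ioi 0 ×ˢ Ioi 0) = 1 := by
    rw [← u.2.2, ← (h x y c s 0 u.1 u.2.1).1]
    exact measureReal_inter_add_sdiff (measurableSet_Ioi.prod measurableSet_Ioi)
      (sq_fin u.1 u.2.1)
  have q := q (n + 1)
  unfold Wt at q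
  unfold mu
  rw [Lf.eq_def n (Sq x y c s), Lf.eq_def n (Sq y x s c),
    sy_swap x y c s (A := St) measurableSet_Ioc measurableSet_Ioo, e1, e2, e3]
  linarith

theorem symS (h : HalfS) : SymS := by
  intro Q n x y c s hn u
  have h1 : ∀ x y c s : ℝ, Un c s → x ≤ n / 2 → y ≤ n / 2 → mu n x y c s ≤ 1 := by
    intro x y c s u hx hy
    rcases le_total s c with k | k
    · exact sy_main h hn u hx hy (Q x y c s u k)
    · rw [← sy_mu1]
      exact sy_main h hn (sy_un u) hy hx (Q y x s c (sy_un u) k)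
  have h2 : ∀ x y c s : ℝ, Un c s → x ≤ n / 2 → mu n x y c s ≤ 1 := by
    intro x y c s u hx
    rcases le_total y (n / 2) with k | k
    · exact h1 x y c s u hx k
    · rw [← sy_mu2]
      exact h1 x _ s c (sy_un u) hx (by linarith)
  rcases le_total x (n / 2) with k | k
  · exact h2 x y c s u k
  · rw [← sy_mu1, ← sy_mu2, ← sy_mu1]
    exact h2 _ y s c (sy_un u) (by linarith)

end Pool.Agent.MP_c59ecb_co.al
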