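import Pool.Agent.MP_c59ecb_co.al.Spec

/-! The inequality at the corner descends by one unit step far from the sides. -/

set_option autoImplicit false

namespace Pool.Agent.MP_c59ecb_co.al

open MeasureTheory Set

theorem up_shift (A : Set (ℝ × ℝ)) : ar ((fun z => z + ((0 : ℝ), (1 : ℝ))) ⁻¹' A) = ar A := by
  unfold ar Measure.real
  rw [measure_preimage_add_right]

theorem up_swap (A : Set (ℝ × ℝ)) : ar (Prod.swap ⁻¹' A) = ar A := by
  unfold ar Measure.real
  exact congrArg _ (MeasurePreserving.measure_preimage_equiv (f := MeasurableEquiv.prodComm)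
    Measure.measurePreserving_swap A)

theorem up_mem (x y c s a b : ℝ) : (a, b + 1) ∈ Sq x (y + 1) c s ↔ (a, b) ∈ Sq x y c s := by
  simp only [Sq, mem_ofPred_eq, add_sub_add_right_eq_sub]

theorem up_wt (x y c s : ℝ) : Wt (Sq y x s c) = Wt (Sq x y c s) := by
  have e : Sq y x s c = Prod.swap ⁻¹' Sq x y c s := by
    ext ⟨a, b⟩
    exact sq_swap x y c s a b
  unfold Wt
  rw [← up_swap (Sq x y c s \ _), ← up_swap (Sq x y c s ∩ St ×ˢ _),
    ← up_swap (Sq x y c s ∩ _ ×ˢ St), e]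
  simp only [preimage_sdiff, preimage_inter, preimage_swap_prod]
  ring

theorem up_qi {x y c s : ℝ} (H : QI y x s c) : QI x y c s := fun m => by
  have := H m
  rw [up_wt] at this
  linarith

theorem upY' {c s x y : ℝ} (h : Un c s) (hy : 137 / 100 ≤ y) (H : QI x (y + 1) c s) :
    QI x y c s := by
  intro m
  have hl := h.sum_lt
  have lo : ∀ a b, (a, b) ∈ Sq x y c s → 33 / 50 < b := fun a b hz => by
    have := (sq_sub h.1 h.2.1 hz).2.1
    linarith
  have h1 : ls (Sq y x s c) m = 0 := by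
    refine Finset.sum_eq_zero fun k _ => ?_
    have : ∀ e : ℝ, e ≤ 33 / 50 → {t | (t, (k : ℝ)) ∈ Sq y x s c} ∩ Icc 0 e = ∅ := fun e he =>
      eq_empty_of_forall_notMem fun t ht => by
        have := lo _ _ ((sq_swap x y c s _ _).1 ht.1)
        linarith [ht.2.2]
    unfold hs
    rw [this _ (by norm_num), this _ le_rfl]
    simp
  have h2 : ls (Sq x y c s) m ≤ ls (Sq x (y + 1) c s) (m + 1) := by
    unfold ls
    rw [Finset.sum_range_succ']
    simp only [Nat.cast_add, Nat.cast_one, up_mem]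
    exact le_add_of_nonneg_right (hs_nonneg _)
  have h3 : 0 ≤ ls (Sq (y + 1) x s c) (m + 1) := Finset.sum_nonneg fun _ _ => hs_nonneg _
  have e1 : ar (Sq x (y + 1) c s \ Ioi 0 ×ˢ Ioi 0) = ar (Sq x y c s \ Ioi 0 ×ˢ Ioi 0) := by
    rw [← up_shift]
    congr 1
    ext ⟨a, b⟩
    simp only [mem_preimage, Prod.mk_add_mk, add_zero, mem_sdiff, up_mem, mem_prod, mem_Ioi]
    refine and_congr_right fun hz => not_congr (and_congr_right fun _ => ?_)
    have := lo a b hz
    constructor <;> intro <;> linarith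
  have e2 : ar (Sq x (y + 1) c s ∩ St ×ˢ Ioi 0) = ar (Sq x y c s ∩ St ×ˢ Ioi 0) := by
    rw [← up_shift]
    congr 1
    ext ⟨a, b⟩
    simp only [mem_preimage, Prod.mk_add_mk, add_zero, mem_inter_iff, up_mem, mem_prod, mem_Ioi]
    refine and_congr_right fun hz => and_congr_right fun _ => ?_
    have := lo a b hz
    constructor <;> intro <;> linarith
  have e3 : ar (Sq x (y + 1) c s ∩ Ioi 0 ×ˢ St) = 0 := by
    have : Sq x (y + 1) c s ∩ Ioi 0 ×ˢ St = ∅ := eq_empty_of_forall_notMem fun z hz => by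
      have k1 := (sq_sub h.1 h.2.1 hz.1).2.1
      have k2 : z.2 ≤ 17 / 20 := hz.2.2.2
      linarith
    rw [this]
    simp [ar]
  have h4 := H (m + 1)
  have h5 := ar_nonneg (Sq x y c s ∩ Ioi 0 ×ˢ St)
  unfold Wt at h4 ⊢
  rw [e1, e2, e3] at h4
  linarith

theorem upY {c s x y : ℝ} (h : Un c s) (hy : 137 / 100 ≤ y) (H : QI x (y + 1) c s)
    (_hy' : 8 / 5 ≤ y + 1) : QI x y c s := upY' h hy H

theorem upX {c s x y : ℝ} (h : Un c s) (hx : 137 / 100 ≤ x) (H : QI (x + 1) y c s) :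
    QI x y c s :=
  up_qi (upY' ⟨h.2.1, h.1, by rw [add_comm]; exact h.2.2⟩ hx (up_qi H))

end Pool.Agent.MP_c59ecb_co.al
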