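import Pool.Agent.MP_c59ecb_co.al.Area
import Pool.Agent.MP_c59ecb_co.al.Half
import Pool.Agent.MP_c59ecb_co.al.Count
import Pool.Agent.MP_c59ecb_co.al.Sym
import Pool.Agent.MP_c59ecb_co.al.Red
import Pool.Agent.MP_c59ecb_co.al.Shift
import Pool.Agent.MP_c59ecb_co.al.SmallA
import Pool.Agent.MP_c59ecb_co.al.SmallB
import Pool.Agent.MP_c59ecb_co.al.Box
import Pool.Agent.MP_c59ecb_co.al.Slab
import Pool.Agent.MP_c59ecb_co.al.NatA
import Pool.Agent.MP_c59ecb_co.al.NatP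
import Pool.Agent.MP_c59ecb_co.al.Up
import Pool.Agent.MP_c59ecb_co.al.C1
import Pool.Agent.MP_c59ecb_co.al.C2
import Pool.Agent.MP_c59ecb_co.al.C3
import Pool.Agent.MP_c59ecb_co.al.C4
import Pool.Agent.MP_c59ecb_co.al.C5
import Pool.Agent.MP_c59ecb_co.al.C6

/-! The assembly. -/

set_option autoImplicit false

namespace Pool.Agent.MP_c59ecb_co.al

open MeasureTheory Set

theorem fi_cov : (Cov 0 30336 0 30336 560 4000 ∧ Cov 0 30336 33280 46080 560 4000) ∧
    Cov 33280 46080 0 30336 560 4000 ∧ Cov 33280 46080 33280 46080 560 4000 := by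
  have hH := halfS areaS
  have hP := natP areaS hH
  have f := fun {x0 x1 y0 y1 te : ℕ} => cov_ch (x0 := x0) (x1 := x1) (y0 := y0) (y1 := y1)
    (te := te) slabS (natT areaS hH boxS (natL natA) hP (natV hH hP))
  have a00 : Cov 0 15360 0 15360 560 4000 :=
    (f _ _ c00_0)
  have a01 : Cov 0 15360 15360 23040 560 4000 :=
    (f _ _ c01_0)
  have a02 : Cov 0 15360 23040 30336 560 4000 :=
    (f _ _ c02_0)
  have a03 : Cov 0 15360 33280 46080 560 4000 :=
    (f _ _ c03_0)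
  have a10 : Cov 15360 23040 0 15360 560 4000 :=
    (f _ _ c10_0)
  have a11 : Cov 15360 23040 15360 23040 560 4000 :=
    (((((((((((((((((((f _ _ c11_0).t
      (f _ _ c11_1)).t
      (f _ _ c11_2)).t
      (f _ _ c11_3)).t
      (f _ _ c11_4)).t
      (f _ _ c11_5)).t
      (f _ _ c11_6)).t
      (f _ _ c11_7)).t
      (f _ _ c11_8)).t
      (f _ _ c11_9)).t
      (f _ _ c11_10)).t
      (f _ _ c11_11)).t
      (f _ _ c11_12)).t
      (f _ _ c11_13)).t
      (f _ _ c11_14)).t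
      (f _ _ c11_15)).t
      (f _ _ c11_16)).t
      (f _ _ c11_17)).t
      (f _ _ c11_18))
  have a12 : Cov 15360 23040 23040 30336 560 4000 :=
    (f _ _ c12_0)
  have a13 : Cov 15360 23040 33280 46080 560 4000 :=
    ((((((((f _ _ c13_0).t
      (f _ _ c13_1)).t
      (f _ _ c13_2)).t
      (f _ _ c13_3)).t
      (f _ _ c13_4)).t
      (f _ _ c13_5)).t
      (f _ _ c13_6)).t
      (f _ _ c13_7))
  have a20 : Cov 23040 30336 0 15360 560 4000 :=
    (f _ _ c20_0)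
  have a21 : Cov 23040 30336 15360 23040 560 4000 :=
    (f _ _ c21_0)
  have a22 : Cov 23040 30336 23040 30336 560 4000 :=
    (f _ _ c22_0)
  have a23 : Cov 23040 30336 33280 46080 560 4000 :=
    (f _ _ c23_0)
  have a30 : Cov 33280 46080 0 15360 560 4000 :=
    (f _ _ c30_0)
  have a31 : Cov 33280 46080 15360 23040 560 4000 :=
    ((((((((f _ _ c31_0).t
      (f _ _ c31_1)).t
      (f _ _ c31_2)).t
      (f _ _ c31_3)).t
      (f _ _ c31_4)).t
      (f _ _ c31_5)).t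
      (f _ _ c31_6)).t
      (f _ _ c31_7))
  have a32 : Cov 33280 46080 23040 30336 560 4000 :=
    (f _ _ c32_0)
  have a33 : Cov 33280 46080 33280 46080 560 4000 :=
    (f _ _ c33_0)
  exact ⟨⟨(((a00.y a01).y a02).x ((a10.y a11).y a12)).x ((a20.y a21).y a22),
    (a03.x a13).x a23⟩, (a30.y a31).y a32, a33⟩

theorem fi_qi (x y c s : ℝ) (hU : Un c s) (h : s ≤ c) : QI x y c s := by
  rcases le_total (50 * s) (7 * c) with h1 | h1
  · exact smallS (halfS areaS) boxS (smallB smallA) c s x y hU h1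
  obtain ⟨⟨a1, a2⟩, a3, a4⟩ := fi_cov
  have t0 : ((560 : ℕ) : ℝ) * c ≤ 4000 * s := by
    push_cast
    linarith
  have t1 : 4000 * s ≤ ((4000 : ℕ) : ℝ) * c := by
    push_cast
    linarith
  have lo : ∀ z : ℝ, -1 ≤ z → z ≤ 137 / 100 → Bx 0 30336 z := fun z b1 b2 =>
    ⟨by push_cast; linarith, by push_cast; linarith, by linarith⟩
  have hi : ∀ z : ℝ, 8 / 5 ≤ z → z ≤ 13 / 5 → Bx 33280 46080 z := fun z b1 b2 =>
    ⟨by push_cast; linarith, by push_cast; linarith, by linarith⟩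
  have key : ∀ {x0 x1 : ℕ}, Cov x0 x1 0 30336 560 4000 → Cov x0 x1 33280 46080 560 4000 →
      ∀ x y, Bx x0 x1 x → -1 ≤ y → y ≤ 13 / 5 → QI x y c s := by
    intro x0 x1 b1 b2 x y hx c1 c2
    rcases le_total y (137 / 100) with d1 | d1
    · exact b1 x y c s hU t0 t1 hx (lo y c1 d1)
    rcases le_total (8 / 5) y with d2 | d2
    · exact b2 x y c s hU t0 t1 hx (hi y d2 c2)
    · exact upY hU d1 (b2 x _ c s hU t0 t1 hx (hi _ (by linarith) (by linarith))) (by linarith)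
  refine shiftS c s hU (fun x y b1 b2 c1 c2 => ?_) x y
  rcases le_total x (137 / 100) with d1 | d1
  · exact key a1 a2 x y (lo x b1 d1) c1 c2
  rcases le_total (8 / 5) x with d2 | d2
  · exact key a3 a4 x y (hi x d2 b2) c1 c2
  · exact upX hU d1 (key a3 a4 _ y (hi _ (by linarith) (by linarith)) c1 c2)

theorem main (n N : ℕ) (ε : ℝ) (a ω : Fin N → ℂ) (hn : 3 ≤ n) (hε : 0 < ε) (hω : ∀ k, ‖ω k‖ = 1)
    (h : ∀ x ∈ Icc (0 : ℝ) (n + ε), ∀ y ∈ Icc (0 : ℝ) (n + ε), ∃ k, ∃ s ∈ Icc (0 : ℝ) 1,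
      ∃ t ∈ Icc (0 : ℝ) 1, (x : ℂ) + y * Complex.I = a k + ω k * (s + t * Complex.I)) :
    n ^ 2 + 2 ≤ N := by
  obtain ⟨x, y, c, s, hU, hc⟩ := redS n N ε a ω (by omega) hε hω h
  have h1 := (countS n N x y c s (by omega) hU hc).trans
    (Finset.sum_le_sum fun i _ => symS (halfS areaS) fi_qi n _ _ _ _ hn (hU i))
  simp only [Finset.sum_const, Finset.card_univ, Fintype.card_fin, nsmul_eq_mul, mul_one] at h1
  have h2 : ((n ^ 2 + 1 : ℕ) : ℝ) < N := by
    push_cast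
    linarith
  exact Nat.cast_lt.1 h2

end Pool.Agent.MP_c59ecb_co.al
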