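import Pool.Agent.MP_c59ecb_co.al.Spec

/-! The areas and the strips, in integers. -/

set_option autoImplicit false

namespace Pool.Agent.MP_c59ecb_co.al

open MeasureTheory Set

theorem np_sub (a b : ℕ) : ((a - b : ℕ) : ℝ) = pos ((a : ℝ) - b) := by
  rcases le_total a b with h | h
  · rw [Nat.sub_eq_zero_of_le h, pos, max_eq_right (sub_nonpos.2 (by exact_mod_cast h))]
    simp
  · rw [Nat.cast_sub h, pos, max_eq_left (sub_nonneg.2 (by exact_mod_cast h))]

theorem np_cond (a T : ℕ) : cond (a.ble T) a T = min a T := by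
  rcases h : a.ble T with _ | _
  · have : ¬ a ≤ T := fun k => by simp [Nat.ble_eq_true_of_le k] at h
    simp only [cond_false]
    omega
  · have := Nat.le_of_ble_eq_true h
    simp only [cond_true]
    omega

theorem np_mul {t : ℝ} (ht : 0 ≤ t) (z : ℝ) : pos (t * z) = t * pos z := by
  rw [pos, pos, mul_max_of_nonneg _ _ ht, mul_zero]

theorem np_pp (z : ℝ) : pos (pos z) = pos z := max_eq_left (le_max_right _ _)

theorem np_ps (z : ℝ) {k : ℝ} (hk : 0 ≤ k) : pos (pos z - k) = pos (z - k) := by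
  simp only [pos, max_def]
  split_ifs <;> linarith

theorem np_Pn {t : ℝ} (ht : 0 ≤ t) (C S a b : ℝ) :
    Pn (t * C) (t * S) (t * a) (t * b) = t ^ 4 * Pn C S a b := by
  have m : ∀ p q : ℝ, min (t * p) (t * q) = t * min p q := fun p q =>
    (mul_min_of_nonneg _ _ ht).symm
  have k : ∀ p q : ℝ, t * p * (t * q) = t * (t * (p * q)) := fun p q => by ring
  unfold Pn
  simp only [np_mul ht, ← mul_add, ← mul_sub, m, k]
  ring

theorem np_Gn {t : ℝ} (ht : 0 ≤ t) (C S u : ℝ) :
    Gn (t * C) (t * S) (t * u) = t ^ 2 * Gn C S u := by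
  unfold Gn
  simp only [np_mul ht, ← mul_add, ← mul_sub]
  ring

theorem np_P0 (h1 : AreaS) {C S : ℝ} (hC : 0 < C) (hS : 0 < S) (a b : ℝ) : 0 ≤ Pn C S a b := by
  have := h1 0 0 C S (a - (C + S) / 2) (b - (C + S) / 2) hC hS
  simp only [sub_zero, sub_add_cancel] at this
  rw [← this]
  exact mul_nonneg (by positivity) (ar_nonneg _)

theorem np_G0 (h2 : HalfS) {C S : ℝ} (hC : 0 < C) (hS : 0 < S) (u : ℝ) : 0 ≤ Gn C S u := by
  have := (h2 0 0 C S (u - (C + S) / 2) hC hS).2.2.2.1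
  simp only [sub_zero, sub_add_cancel] at this
  refine nonneg_of_mul_nonneg_right (a := C ^ 2 + S ^ 2) ?_ (by positivity)
  rw [← this]
  exact mul_nonneg (by positivity) (ar_nonneg _)

theorem np_Gm (h2 : HalfS) {C S : ℝ} (hC : 0 < C) (hS : 0 < S) {u u' : ℝ} (h : u ≤ u') :
    Gn C S u ≤ Gn C S u' := by
  have := ((h2 0 0 C S (u - (C + S) / 2) hC hS).2.2.2.2.2 (u' - (C + S) / 2) (by linarith)).1
  simp only [sub_zero, sub_add_cancel] at this
  rw [← sub_nonneg]
  refine nonneg_of_mul_nonneg_right (a := C ^ 2 + S ^ 2) ?_ (by positivity)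
  rw [← this]
  exact mul_nonneg (by positivity) (ar_nonneg _)

theorem np_nat (a : ℕ) : pos (a : ℝ) = a := max_eq_left (Nat.cast_nonneg a)

theorem np_pq (C S a b : ℕ) : (pq C S (C + S) a b : ℝ) = pos (Pn C S a b) := by
  have e1 : min (min a (C + S)) C = min a C := by omega
  have e2 : min (min a (C + S)) S = min a S := by omega
  simp only [pq, sv_eq, np_cond, Nat.add_eq, Nat.mul_eq, Nat.sub_eq, Nat.pow_eq, e1, e2]
  unfold Pn
  simp only [np_sub, Nat.cast_add, Nat.cast_mul, Nat.cast_pow, Nat.cast_min, np_nat]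
  rw [sq (C : ℝ), sq (S : ℝ)]

theorem np_gq (C S a : ℕ) : (gq C S (C + S) a : ℝ) = pos (Gn C S a) := by
  simp only [gq, sv_eq, Nat.add_eq, Nat.sub_eq, Nat.pow_eq]
  unfold Gn
  simp only [np_sub, Nat.cast_add, Nat.cast_pow, np_nat]

theorem natP (h1 : AreaS) (h2 : HalfS) : NatP := by
  intro C S a b u v hC hS ha hb
  have hC' : (0 : ℝ) < C := by exact_mod_cast hC
  have hS' : (0 : ℝ) < S := by exact_mod_cast hS
  have eC : (12800 : ℝ) * (C / 12800) = C := by ring
  have eS : (12800 : ℝ) * (S / 12800) = S := by ring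
  constructor
  · rw [np_pq, pos, max_eq_left (np_P0 h1 hC' hS' _ _), ← np_Pn (by norm_num), eC, eS, ha, hb]
    simp only [Pn, np_pp]
  · rw [np_gq, pos, max_eq_left (np_G0 h2 hC' hS' _), ← np_Gn (by norm_num), eC, eS, ha]
    simp only [Gn, np_pp, np_ps _ hC'.le, np_ps _ hS'.le, np_ps _ (add_pos hC' hS').le]

theorem np_core (h2 : HalfS) (h3 : NatP) (C S fl h x0 x1 : ℕ) (x c s A A' : ℝ) (hu : Un c s)
    (hC : 0 < C) (hS : 0 < S) (hf : 2 * (fl : ℝ) / 12800 ≤ c - s) (hh : 2 * h = C + S)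
    (hx : Bx x0 x1 x) (hA : A' ≤ A)
    (e1 : 2 * c * s * A = (c ^ 2 + s ^ 2) *
      (Gn c s (17 / 20 - x + (c + s) / 2) - Gn c s (7 / 25 - x + (c + s) / 2)))
    (e2 : 2 * (C / 12800 : ℝ) * (S / 12800) * A' = ((C / 12800 : ℝ) ^ 2 + (S / 12800) ^ 2) *
      (Gn (C / 12800) (S / 12800) (17 / 20 - x + (C / 12800 + S / 12800) / 2) -
        Gn (C / 12800) (S / 12800) (7 / 25 - x + (C / 12800 + S / 12800) / 2))) :
    (vv C S (C + S) h (C * C + S * S) (2 * C * S * 12800) fl x0 x1 : ℝ) ≤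
      220 * 12800 ^ 2 * (2 * C * S) * A := by
  have hC' : (0 : ℝ) < C := by exact_mod_cast hC
  have hS' : (0 : ℝ) < S := by exact_mod_cast hS
  have hh' : 2 * (h : ℝ) = C + S := by exact_mod_cast hh
  obtain ⟨b0, b1, -⟩ := hx
  obtain ⟨c0, s0, cs⟩ := hu
  unfold vv
  rcases hc : cond (x1.ble (fl.add 16384)) (Nat.ble 23680 (x0.add fl)) false with _ | _
  · simp only [cond_false, Nat.add_eq, Nat.mul_eq, Nat.sub_eq]
    have g : ∀ k z : ℕ, (gq C S (C + S) (h + k - z) : ℝ) =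
        12800 ^ 2 * Gn (C / 12800) (S / 12800) ((h + k - z) / 12800) := fun k z =>
      (h3 C S (h + k - z) 0 _ 0 hC hS (by
        rw [np_sub]; push_cast; congr 1; ring) (by simp [pos])).2
    have k1 : (0 : ℝ) < C / 12800 := by positivity
    have k2 : (0 : ℝ) < S / 12800 := by positivity
    have m1 := np_Gm h2 k1 k2 (u := (h + (23680 : ℕ) - x1) / 12800)
      (u' := 17 / 20 - x + (C / 12800 + S / 12800) / 2) (by push_cast; linarith)
    have m2 := np_Gm h2 k1 k2 (u' := (h + (16384 : ℕ) - x0) / 12800)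
      (u := 7 / 25 - x + (C / 12800 + S / 12800) / 2) (by push_cast; linarith)
    have m3 := np_Gm h2 k1 k2 (u := 7 / 25 - x + (C / 12800 + S / 12800) / 2)
      (u' := 17 / 20 - x + (C / 12800 + S / 12800) / 2) (by linarith)
    rw [Nat.cast_mul, Nat.cast_mul, np_sub, g, g]
    generalize Gn (C / 12800) (S / 12800) (17 / 20 - x + (C / 12800 + S / 12800) / 2) = q at *
    generalize Gn (C / 12800) (S / 12800) (7 / 25 - x + (C / 12800 + S / 12800) / 2) = p at *
    have m4 : pos (12800 ^ 2 * Gn (C / 12800) (S / 12800) ((h + (23680 : ℕ) - x1) / 12800) -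
        12800 ^ 2 * Gn (C / 12800) (S / 12800) ((h + (16384 : ℕ) - x0) / 12800)) ≤
        12800 ^ 2 * (q - p) := max_le (by linarith) (by linarith)
    have m5 := mul_le_mul_of_nonneg_right m4 (show (0 : ℝ) ≤ C * C + S * S by positivity)
    have m6 := mul_le_mul_of_nonneg_left hA (show (0 : ℝ) ≤ C * S by positivity)
    push_cast at m5 ⊢
    nlinarith
  · have k : x1 ≤ fl + 16384 ∧ 23680 ≤ x0 + fl := by
      rcases h1 : x1.ble (fl.add 16384) with _ | _
      · simp [h1] at hc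
      · rw [h1, cond_true] at hc
        exact ⟨Nat.le_of_ble_eq_true h1, Nat.le_of_ble_eq_true hc⟩
    have k1 : (x1 : ℝ) ≤ fl + 16384 := by exact_mod_cast k.1
    have k2 : (23680 : ℝ) ≤ x0 + fl := by exact_mod_cast k.2
    have g : ∀ u, s ≤ u → u ≤ c → Gn c s u = 2 * u * s - s ^ 2 := fun u h1 h2 => by
      unfold Gn pos
      rw [max_eq_left (by linarith), max_eq_right (by linarith), max_eq_left (by linarith),
        max_eq_right (by linarith)]
      ring
    rw [g _ (by linarith) (by linarith), g _ (by linarith) (by linarith), cs] at e1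
    have c1 : c ≤ 1 := by nlinarith
    have a1 : c * A = 57 / 100 := mul_left_cancel₀ s0.ne' (by linarith)
    have a2 : 0 < A := by
      by_contra hn
      nlinarith [mul_nonneg c0.le (neg_nonneg.2 (not_lt.1 hn))]
    have a3 : 57 / 100 ≤ A := by nlinarith
    have m6 := mul_le_mul_of_nonneg_left a3 (show (0 : ℝ) ≤ C * S by positivity)
    simp only [cond_true, Nat.mul_eq]
    push_cast
    nlinarith

theorem natV (h2 : HalfS) (h3 : NatP) : NatV := by
  intro C S Cu Su fl h x0 x1 x y c s hu hB hh hx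
  obtain ⟨hC, hS, -, -, hf, hsub⟩ := hB
  have k1 : (0 : ℝ) < C / 12800 := by positivity
  have k2 : (0 : ℝ) < S / 12800 := by positivity
  have mo : ∀ (x y : ℝ) (F : Set (ℝ × ℝ)),
      ar (Sq x y (C / 12800) (S / 12800) ∩ F) ≤ ar (Sq x y c s ∩ F) := fun x y F =>
    measureReal_mono (inter_subset_inter_left _ (hsub x y).1)
      (ne_top_of_le_ne_top (sq_fin hu.1 hu.2.1) (measure_mono inter_subset_left))
  exact ⟨np_core h2 h3 C S fl h x0 x1 x c s _ _ hu hC hS hf hh hx (mo x y _)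
      ((h2 x y c s _ hu.1 hu.2.1).2.2.2.2.2 _ (by norm_num)).1
      ((h2 x y _ _ _ k1 k2).2.2.2.2.2 _ (by norm_num)).1,
    np_core h2 h3 C S fl h x0 x1 x c s _ _ hu hC hS hf hh hx (mo y x _)
      ((h2 y x c s _ hu.1 hu.2.1).2.2.2.2.2 _ (by norm_num)).2
      ((h2 y x _ _ _ k1 k2).2.2.2.2.2 _ (by norm_num)).2⟩

end Pool.Agent.MP_c59ecb_co.al
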