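import Pool.Agent.MP_c59ecb_co.al.Spec

/-! The test of one box and the search are sound. -/

set_option autoImplicit false

namespace Pool.Agent.MP_c59ecb_co.al

open MeasureTheory Set

theorem ns_sub (a b : ℕ) : ((a.sub b : ℕ) : ℝ) = pos (a - b) := by
  rw [Nat.sub_eq]
  rcases le_total b a with h | h
  · rw [Nat.cast_sub h, pos, max_eq_left (sub_nonneg.2 (Nat.cast_le.2 h))]
  · rw [Nat.sub_eq_zero_of_le h, pos, max_eq_right (sub_nonpos.2 (Nat.cast_le.2 h)), Nat.cast_zero]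

theorem ns_add (a b : ℕ) : ((a.add b : ℕ) : ℝ) = a + b := Nat.cast_add a b

theorem ns_mul (a b : ℕ) : ((a.mul b : ℕ) : ℝ) = a * b := Nat.cast_mul a b

theorem ns_cases {M : ℕ} {b : Bool} (h : cond (M.ble 0) true b = true) : M = 0 ∨ b = true := by
  cases M
  exacts [Or.inl rfl, Or.inr h]

theorem ns_fin {C S T h Q M V x0 x1 y0 y1 : ℕ} (H : fin2 C S T h Q M V x0 x1 y0 y1 = true) :
    (M : ℝ) ≤ V ∨ (M : ℝ) + pq C S T ((h.add 12800).sub x1) ((h.add 12800).sub y1) * 500 +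
      ((gq C S T ((h.add 23680).sub y0) + gq C S T ((h.add 23680).sub x0)) * Q +
        (pq C S T ((h.add 12800).sub x1) ((h.add 23680).sub y0) +
          pq C S T ((h.add 23680).sub x0) ((h.add 12800).sub y1))) * 220 ≤
      V + C * S * Q * 1000 +
      ((gq C S T ((h.add 16384).sub y1) + gq C S T ((h.add 16384).sub x1)) * Q +
        (pq C S T ((h.add 12800).sub x1) ((h.add 16384).sub y1) +
          pq C S T ((h.add 16384).sub x1) ((h.add 12800).sub y1))) * 220 := by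
  rw [fin2] at H
  simp only [sv_eq] at H
  generalize (h.add 12800).sub x1 = a0 at *
  generalize (h.add 12800).sub y1 = b0 at *
  generalize (h.add 16384).sub x1 = px at *
  generalize (h.add 16384).sub y1 = py at *
  generalize (h.add 23680).sub x0 = qx at *
  generalize (h.add 23680).sub y0 = qy at *
  cases c1 : M.ble V
  · cases c2 : (a0.add b0).ble 0 <;> rw [c1, c2] at H
    · have := (Nat.cast_le (α := ℝ)).2 (Nat.le_of_ble_eq_true H)
      simp only [ns_add, ns_mul, Nat.cast_ofNat] at this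
      exact Or.inr this
    · exact absurd H Bool.false_ne_true
  · exact Or.inl (Nat.cast_le.2 (Nat.le_of_ble_eq_true c1))

/-- The test of one box. -/
def ok2 (C S T h Q E Cu Su Tu hu g fl x0 x1 y0 y1 : ℕ) : Bool :=
  sv (((ms Cu Su Tu hu g x0 x1 y0 y1 12800).add (ms Cu Su Tu hu g x0 x1 y0 y1 25600)).add
    ((ms Cu Su Tu hu g x0 x1 y0 y1 38400).add (ms Cu Su Tu hu g x0 x1 y0 y1 51200))) fun M =>
  cond (M.ble 0) true (fin2 C S T h Q (M.mul E)
    ((vv C S T h Q E fl x0 x1).add (vv C S T h Q E fl y0 y1)) x0 x1 y0 y1)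

/-- The test of one box is sound. -/
def NatT : Prop := ∀ (C S Cu Su fl h hu x0 x1 y0 y1 : ℕ) (x y c s : ℝ), Un c s →
  Btw C S Cu Su fl c s → 2 * h = C + S → 2 * hu = Cu + Su → Bx x0 x1 x → Bx y0 y1 y →
  ok2 C S (C + S) h (C * C + S * S) (2 * C * S * 12800) Cu Su (Cu + Su) hu (hu + 12800) fl
    x0 x1 y0 y1 = true → QI x y c s

theorem natT (hA : AreaS) (hH : HalfS) (hB : BoxS) (hL : NatL) (hP : NatP) (hV : NatV) : NatT := by
  intro C S Cu Su fl h hu x0 x1 y0 y1 x y c s hU hb h1 h2 hx hy hok m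
  obtain ⟨hC, hS, hCu, hSu, -, hsub⟩ := id hb
  have l1 := hL Cu Su hu x0 x1 y0 y1 m x y c s hCu hSu h2 hU (hsub x y).2 hx hy
  have v1 := (hV C S Cu Su fl h x0 x1 x y c s hU hb h1 hx).1
  have v2 := (hV C S Cu Su fl h y0 y1 y x c s hU hb h1 hy).2
  rw [ok2, sv_eq] at hok
  replace hok := ns_cases hok
  generalize (((ms Cu Su (Cu + Su) hu (hu + 12800) x0 x1 y0 y1 12800).add
      (ms Cu Su (Cu + Su) hu (hu + 12800) x0 x1 y0 y1 25600)).add
    ((ms Cu Su (Cu + Su) hu (hu + 12800) x0 x1 y0 y1 38400).add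
      (ms Cu Su (Cu + Su) hu (hu + 12800) x0 x1 y0 y1 51200))) = M at l1 hok
  generalize vv C S (C + S) h (C * C + S * S) (2 * C * S * 12800) fl x0 x1 = V1 at v1 hok
  generalize vv C S (C + S) h (C * C + S * S) (2 * C * S * 12800) fl y0 y1 = V2 at v2 hok
  generalize ls (Sq x y c s) m + ls (Sq y x s c) m = L at l1 ⊢
  rcases hok with rfl | hok
  · linarith [wt_nonneg (Sq x y c s), (Nat.cast_zero : ((0 : ℕ) : ℝ) = 0)]
  · have hC' : (0 : ℝ) < C / 12800 := by positivity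
    have hS' : (0 : ℝ) < S / 12800 := by positivity
    have he : (0 : ℝ) < 12800 ^ 2 * (2 * C * S) := by positivity
    have hh : ((C : ℝ) / 12800 + S / 12800) / 2 = h / 12800 := by
      have : (2 * h : ℝ) = C + S := by exact_mod_cast h1
      linarith
    obtain ⟨b1, -, b3⟩ := hB _ _ (x + 1 - x1 / 12800) (y + 1 - y1 / 12800)
      (7 / 25 + (x + 1 - x1 / 12800)) (17 / 20 + (x + 1 - x0 / 12800))
      (7 / 25 + (y + 1 - y1 / 12800)) (17 / 20 + (y + 1 - y0 / 12800)) (sq_meas ..) (sq_meas ..)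
      (sq_fin hU.1 hU.2.1) (hsub x y).1 (by linarith [hx.2.1]) (by linarith [hy.2.1])
      (by linarith [hx.2.1]) (by linarith [hy.2.1]) (by linarith [hx.1]) (by linarith [hy.1])
    have hp : ∀ (k l A B : ℕ) (a b : ℝ), 12800 * (a - x) = k - A → 12800 * (b - y) = l - B →
        (pq C S (C + S) ((h.add k).sub A) ((h.add l).sub B) : ℝ) = 12800 ^ 2 * (2 * C * S) *
          ar (Sq x y (C / 12800) (S / 12800) ∩ Ioi a ×ˢ Ioi b) := by
      intro k l A B a b e1 e2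
      rw [(hP C S _ _ (a - x + h / 12800) (b - y + h / 12800) hC hS ?_ ?_).1, ← hh,
        ← hA x y _ _ a b hC' hS']
      · ring
      · rw [ns_sub, ns_add]
        congr 1
        linarith
      · rw [ns_sub, ns_add]
        congr 1
        linarith
    have hg : ∀ (k A : ℕ) (u : ℝ), 12800 * u = k - A → (gq C S (C + S) ((h.add k).sub A) : ℝ) =
        12800 ^ 2 * Gn (C / 12800) (S / 12800) (u + (C / 12800 + S / 12800) / 2) := by
      intro k A u e1
      have : (((h.add k).sub A : ℕ) : ℝ) = pos (12800 * (u + (C / 12800 + S / 12800) / 2)) := by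
        rw [ns_sub, ns_add, hh]
        congr 1
        linarith
      exact (hP C S _ _ _ _ hC hS this this).2
    obtain ⟨k0, -, -, -, -, k1⟩ := hH x y _ _ (7 / 25 + (x + 1 - x1 / 12800)) hC' hS'
    obtain ⟨-, -, -, -, -, k2⟩ := hH x y _ _ (7 / 25 + (y + 1 - y1 / 12800)) hC' hS'
    replace k1 := (k1 (17 / 20 + (x + 1 - x0 / 12800)) (by linarith [hx.1, hx.2.1])).1
    replace k2 := (k2 (17 / 20 + (y + 1 - y0 / 12800)) (by linarith [hy.1, hy.2.1])).2
    have p1 := hp 12800 12800 x1 y1 (x + 1 - x1 / 12800) (y + 1 - y1 / 12800)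
      (by push_cast; ring) (by push_cast; ring)
    have p2 := hp 12800 23680 x1 y0 (x + 1 - x1 / 12800) (17 / 20 + (y + 1 - y0 / 12800))
      (by push_cast; ring) (by push_cast; ring)
    have p3 := hp 23680 12800 x0 y1 (17 / 20 + (x + 1 - x0 / 12800)) (y + 1 - y1 / 12800)
      (by push_cast; ring) (by push_cast; ring)
    have p4 := hp 12800 16384 x1 y1 (x + 1 - x1 / 12800) (7 / 25 + (y + 1 - y1 / 12800))
      (by push_cast; ring) (by push_cast; ring)
    have p5 := hp 16384 12800 x1 y1 (7 / 25 + (x + 1 - x1 / 12800)) (y + 1 - y1 / 12800)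
      (by push_cast; ring) (by push_cast; ring)
    have g1 := hg 23680 y0 (17 / 20 + (y + 1 - y0 / 12800) - y) (by push_cast; ring)
    have g2 := hg 23680 x0 (17 / 20 + (x + 1 - x0 / 12800) - x) (by push_cast; ring)
    have g3 := hg 16384 y1 (7 / 25 + (y + 1 - y1 / 12800) - y) (by push_cast; ring)
    have g4 := hg 16384 x1 (7 / 25 + (x + 1 - x1 / 12800) - x) (by push_cast; ring)
    have l2 := mul_le_mul_of_nonneg_right l1 (by positivity : (0 : ℝ) ≤ 2 * C * S * 12800)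
    refine le_of_mul_le_mul_left ?_ he
    rcases ns_fin hok with this | this <;> rw [ns_add, ns_mul] at this
    · push_cast at this
      linear_combination (1 / 500) * (this + l2 + v1 + v2) + mul_le_mul_of_nonneg_left b1 he.le
    · rw [p1, p2, p3, p4, p5, g1, g2, g3, g4] at this
      push_cast at this
      rw [k0] at b3
      linear_combination (1 / 500) * (this + l2 + v1 + v2) + mul_le_mul_of_nonneg_left b3 he.le +
        11 / 25 * 12800 ^ 4 * (k1 + k2)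

theorem go_ok {p : ℕ → ℕ → ℕ → ℕ → Bool} {R : ℝ → ℝ → Prop}
    (hp : ∀ (x0 x1 y0 y1 : ℕ) (x y : ℝ), p x0 x1 y0 y1 = true → x0 ≤ x → x ≤ x1 → y0 ≤ y →
      y ≤ y1 → R x y) (f : ℕ) : ∀ (x0 x1 y0 y1 c : ℕ) (x y : ℝ), go p f x0 x1 y0 y1 c ≠ 0 →
      x0 ≤ x → x ≤ x1 → y0 ≤ y → y ≤ y1 → R x y := by
  induction f with
  | zero => exact fun _ _ _ _ _ _ _ h => absurd rfl h
  | succ f ih =>
    intro x0 x1 y0 y1 c x y h a1 a2 a3 a4
    have e : go p (f + 1) x0 x1 y0 y1 c = sv (c.mod 4) fun d =>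
      cond (d.ble 1) (cond (p x0 x1 y0 y1) (c.div 4) 0)
        (cond (d.ble 2)
          (sv ((x0.add x1).div 2) fun m =>
            Nat.casesOn (go p f x0 m y0 y1 (c.div 4)) 0 fun r => go p f m x1 y0 y1 r.succ)
          (sv ((y0.add y1).div 2) fun m =>
            Nat.casesOn (go p f x0 x1 y0 m (c.div 4)) 0 fun r => go p f x0 x1 m y1 r.succ)) := rfl
    rw [e] at h
    simp only [sv_eq] at h
    cases h1 : (c.mod 4).ble 1
    · cases h2 : (c.mod 4).ble 2 <;> rw [h1, h2] at h <;> simp only [cond_true, cond_false] at h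
      · generalize (y0.add y1).div 2 = m at h
        cases h3 : go p f x0 x1 y0 m (c.div 4) <;> rw [h3] at h
        · exact absurd rfl h
        · rcases le_total y m with h4 | h4
          · exact ih _ _ _ _ _ _ _ (h3.trans_ne (Nat.succ_ne_zero _)) a1 a2 a3 h4
          · exact ih _ _ _ _ _ _ _ h a1 a2 h4 a4
      · generalize (x0.add x1).div 2 = m at h
        cases h3 : go p f x0 m y0 y1 (c.div 4) <;> rw [h3] at h
        · exact absurd rfl h
        · rcases le_total x m with h4 | h4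
          · exact ih _ _ _ _ _ _ _ (h3.trans_ne (Nat.succ_ne_zero _)) a1 h4 a3 a4
          · exact ih _ _ _ _ _ _ _ h h4 a2 a3 a4
    · rw [h1] at h
      cases h2 : p x0 x1 y0 y1 <;> rw [h2] at h
      · exact absurd rfl h
      · exact hp _ _ _ _ _ _ h2 a1 a2 a3 a4

/-- The test of one range of angles on one box. -/
noncomputable def one (x0 x1 y0 y1 t0 t1 C S Cu Su fl h hu c : ℕ) : Bool :=
  slab t0 t1 C S Cu Su fl && decide (2 * h = C + S ∧ 2 * hu = Cu + Su) &&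
    sv (C + S) fun T => sv (C * C + S * S) fun Q => sv (2 * C * S * 12800) fun E =>
    sv (Cu + Su) fun Tu => sv (hu + 12800) fun g =>
      Nat.ble 1 (go (ok2 C S T h Q E Cu Su Tu hu g fl) 40 x0 x1 y0 y1 c)

/-- The test of a chain of ranges. -/
noncomputable def ch (x0 x1 y0 y1 te : ℕ) : List (List ℕ) → ℕ → Bool
  | [t1, C, S, Cu, Su, fl, h, hu, c] :: l, t0 =>
    one x0 x1 y0 y1 t0 t1 C S Cu Su fl h hu c && (te.ble t1 || ch x0 x1 y0 y1 te l t1)
  | _, _ => false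

/-- The inequality holds on a box. -/
def Cov (x0 x1 y0 y1 t0 t1 : ℕ) : Prop := ∀ x y c s : ℝ, Un c s → t0 * c ≤ 4000 * s →
  4000 * s ≤ t1 * c → Bx x0 x1 x → Bx y0 y1 y → QI x y c s

theorem cov_one (h1 : SlabS) (h2 : NatT) {x0 x1 y0 y1 t0 t1 C S Cu Su fl h hu d : ℕ}
    (H : one x0 x1 y0 y1 t0 t1 C S Cu Su fl h hu d = true) : Cov x0 x1 y0 y1 t0 t1 := by
  intro x y c s hU a1 a2 hx hy
  rw [one] at H
  simp only [sv_eq, Bool.and_eq_true, decide_eq_true_eq] at H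
  obtain ⟨⟨b1, b2, b3⟩, b4⟩ := H
  refine go_ok (R := fun u v => u = 12800 * (x + 1) → v = 12800 * (y + 1) → QI x y c s)
    (fun x0 x1 y0 y1 u v hp c1 c2 c3 c4 e1 e2 => ?_) 40 x0 x1 y0 y1 d _ _
    (Nat.one_le_iff_ne_zero.1 (Nat.le_of_ble_eq_true b4)) hx.1 hx.2.1 hy.1 hy.2.1 rfl rfl
  exact h2 C S Cu Su fl h hu x0 x1 y0 y1 x y c s hU (h1 _ _ _ _ _ _ _ _ _ b1 hU a1 a2) b2 b3
    ⟨e1 ▸ c1, e1 ▸ c2, hx.2.2⟩ ⟨e2 ▸ c3, e2 ▸ c4, hy.2.2⟩ hp

theorem Cov.t {x0 x1 y0 y1 t0 t1 t2 : ℕ} (h : Cov x0 x1 y0 y1 t0 t1)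
    (h' : Cov x0 x1 y0 y1 t1 t2) : Cov x0 x1 y0 y1 t0 t2 := fun x y c s hU a1 a2 hx hy =>
  (le_total (4000 * s) (t1 * c)).elim (fun a => h x y c s hU a1 a hx hy)
    fun a => h' x y c s hU a a2 hx hy

theorem Cov.x {x0 x1 x2 y0 y1 t0 t1 : ℕ} (h : Cov x0 x1 y0 y1 t0 t1)
    (h' : Cov x1 x2 y0 y1 t0 t1) : Cov x0 x2 y0 y1 t0 t1 := fun x y c s hU a1 a2 hx hy =>
  (le_total (12800 * (x + 1)) x1).elim (fun a => h x y c s hU a1 a2 ⟨hx.1, a, hx.2.2⟩ hy)
    fun a => h' x y c s hU a1 a2 ⟨a, hx.2⟩ hy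

theorem Cov.y {x0 x1 y0 y1 y2 t0 t1 : ℕ} (h : Cov x0 x1 y0 y1 t0 t1)
    (h' : Cov x0 x1 y1 y2 t0 t1) : Cov x0 x1 y0 y2 t0 t1 := fun x y c s hU a1 a2 hx hy =>
  (le_total (12800 * (y + 1)) y1).elim (fun a => h x y c s hU a1 a2 hx ⟨hy.1, a, hy.2.2⟩)
    fun a => h' x y c s hU a1 a2 hx ⟨a, hy.2⟩

theorem cov_ch (h1 : SlabS) (h2 : NatT) {x0 x1 y0 y1 te : ℕ} (l : List (List ℕ)) (t0 : ℕ)
    (H : ch x0 x1 y0 y1 te l t0 = true) : Cov x0 x1 y0 y1 t0 te := by
  fun_induction ch x0 x1 y0 y1 te l t0 with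
  | case1 t1 C S Cu Su fl h hu d l t0 ih =>
    simp only [Bool.and_eq_true, Bool.or_eq_true] at H
    refine H.2.elim (fun a x y c s hU a1 a2 => cov_one h1 h2 H.1 x y c s hU a1 (a2.trans ?_))
      fun a => (cov_one h1 h2 H.1).t (ih a)
    exact mul_le_mul_of_nonneg_right (Nat.cast_le.2 (Nat.le_of_ble_eq_true a)) hU.1.le
  | case2 => exact absurd H Bool.false_ne_true

end Pool.Agent.MP_c59ecb_co.al
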