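import Mathlib
import Pool.Agent.MP_c59ecb_co.al.Chk

/-!
A measure that shows that `n ^ 2 + 1` unit squares do not cover a square of side above `n`:
definitions, basic facts and the statements of the parts.
-/

set_option autoImplicit false

namespace Pool.Agent.MP_c59ecb_co.al

open MeasureTheory Set

/-- The open square with centre `(x, y)` and side vector `(C, S)`. -/
def Sq (x y C S : ℝ) : Set (ℝ × ℝ) :=
  {z | |C * (z.1 - x) + S * (z.2 - y)| < (C ^ 2 + S ^ 2) / 2 ∧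
    |C * (z.2 - y) - S * (z.1 - x)| < (C ^ 2 + S ^ 2) / 2}

/-- A unit vector with positive coordinates. -/
def Un (c s : ℝ) : Prop := 0 < c ∧ 0 < s ∧ c ^ 2 + s ^ 2 = 1

/-- The area. -/
noncomputable def ar (E : Set (ℝ × ℝ)) : ℝ := volume.real E

/-- The positive part. -/
def pos (t : ℝ) : ℝ := max t 0

/-- The mass on one segment. -/
noncomputable def hs (T : Set ℝ) : ℝ :=
  77 / 500 * volume.real (T ∩ Icc 0 (9 / 25)) + 37 / 125 * volume.real (T ∩ Icc 0 (33 / 50))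

/-- The mass on the left of `t`. -/
noncomputable def cumR (t : ℝ) : ℝ :=
  77 / 500 * min (pos t) (9 / 25) + 37 / 125 * min (pos t) (33 / 50)

/-- The mass on the first `m` segments. -/
noncomputable def ls (E : Set (ℝ × ℝ)) (m : ℕ) : ℝ :=
  ∑ k ∈ Finset.range m, hs {t | (t, (k : ℝ)) ∈ E}

/-- The strip with smaller density. -/
def St : Set ℝ := Ioc (7 / 25) (17 / 20)

/-- The room left by the density near the corner. -/
noncomputable def Wt (E : Set (ℝ × ℝ)) : ℝ :=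
  ar (E \ Ioi 0 ×ˢ Ioi 0) + 11 / 25 * ar (E ∩ St ×ˢ Ioi 0) + 11 / 25 * ar (E ∩ Ioi 0 ×ˢ St)

/-- The inequality at the corner. -/
def QI (x y c s : ℝ) : Prop := ∀ m, ls (Sq x y c s) m + ls (Sq y x s c) m ≤ Wt (Sq x y c s)

/-- The part of the measure that belongs to the left side. -/
noncomputable def Lf (n : ℕ) (E : Set (ℝ × ℝ)) : ℝ :=
  ls E (n + 1) - 11 / 25 * ar (E ∩ St ×ˢ Ioo 0 (n : ℝ))

/-- The measure of a square. -/
noncomputable def mu (n : ℕ) (x y c s : ℝ) : ℝ :=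
  ar (Sq x y c s ∩ Ioo 0 (n : ℝ) ×ˢ Ioo 0 (n : ℝ)) + Lf n (Sq x y c s) + Lf n (Sq y x s c) +
    Lf n (Sq (n - x) y s c) + Lf n (Sq (n - y) x c s)

/-- The area in a quadrant, up to a factor. -/
noncomputable def Pn (C S a b : ℝ) : ℝ :=
  (C * pos (C + S - pos b)) ^ 2 + pos (pos (min (pos a) (C + S) - S) * S - C * pos b) ^ 2 +
    pos (S * (C + S) - (S * pos b + pos (min (pos a) (C + S) - C) * C)) ^ 2 -
    (pos (C * C + min (pos a) C * S - C * pos b) ^ 2 + (C ^ 2 + S ^ 2) * pos (S - pos b) ^ 2 +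
      pos (S * C - (S * pos b + min (pos a) S * C)) ^ 2)

/-- The area in a half plane, up to a factor. -/
noncomputable def Gn (C S u : ℝ) : ℝ :=
  pos u ^ 2 + pos (u - (C + S)) ^ 2 - (pos (u - S) ^ 2 + pos (u - C) ^ 2)

theorem sq_open (x y C S : ℝ) : IsOpen (Sq x y C S) := by
  unfold Sq
  rw [ofPred_and]
  refine IsOpen.inter ?_ ?_ <;> exact isOpen_lt (by fun_prop) (by fun_prop)

theorem sq_meas (x y C S : ℝ) : MeasurableSet (Sq x y C S) := (sq_open x y C S).measurableSet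

theorem sq_swap (x y C S a b : ℝ) : (a, b) ∈ Sq y x S C ↔ (b, a) ∈ Sq x y C S := by
  simp only [Sq, mem_ofPred_eq, add_comm (S ^ 2), add_comm (S * _), abs_sub_comm (S * _)]

theorem sq_refl (x y C S a b : ℝ) : (a, b) ∈ Sq x y S C ↔ (a, 2 * y - b) ∈ Sq x y C S := by
  simp only [Sq, mem_ofPred_eq, add_comm (S ^ 2)]
  rw [and_comm, show C * (a - x) + S * (2 * y - b - y) = -(S * (b - y) - C * (a - x)) by ring,
    show C * (2 * y - b - y) - S * (a - x) = -(S * (a - x) + C * (b - y)) by ring, abs_neg, abs_neg]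

/-- The coordinates of a point relative to the lower left corner of the bounding box. -/
theorem sq_ch {x y C S a b u v : ℝ} (hC : 0 < C) (hS : 0 < S) (h : (a, b) ∈ Sq x y C S)
    (hu : u = a - x + (C + S) / 2) (hv : v = b - y + (C + S) / 2) :
    (0 < u ∧ u < C + S) ∧ (0 < v ∧ v < C + S) ∧ (C - v) * S / C < u ∧ (v - C) * C / S < u ∧
      u < S + v * C / S ∧ u < C + S - (v - S) * S / C := by
  obtain ⟨h1, h2⟩ := h
  obtain ⟨h3, h4⟩ := abs_lt.1 h1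
  obtain ⟨h5, h6⟩ := abs_lt.1 h2
  have e1 : a - x = u - (C + S) / 2 := by linarith
  have e2 : b - y = v - (C + S) / 2 := by linarith
  simp only [e1, e2] at h3 h4 h5 h6
  have hQ : 0 < C ^ 2 + S ^ 2 := by positivity
  have g : ∀ {p q : ℝ}, (C ^ 2 + S ^ 2) * p < (C ^ 2 + S ^ 2) * q → p < q := fun h =>
    lt_of_mul_lt_mul_left h hQ.le
  have m := fun {p q r : ℝ} (h : p < q) (h' : 0 < r) => mul_lt_mul_of_pos_left h h'
  refine ⟨⟨g ?_, g ?_⟩, ⟨g ?_, g ?_⟩, ?_, ?_, ?_, ?_⟩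
  · nlinarith [m h3 hC, m h6 hS]
  · nlinarith [m h4 hC, m h5 hS]
  · nlinarith [m h3 hS, m h5 hC]
  · nlinarith [m h4 hS, m h6 hC]
  · rw [div_lt_iff₀ hC]; nlinarith
  · rw [div_lt_iff₀ hS]; nlinarith
  · rw [← sub_lt_iff_lt_add', lt_div_iff₀ hS]; nlinarith
  · rw [lt_sub_comm, div_lt_iff₀ hC]; nlinarith

theorem sq_sub {x y C S : ℝ} (hC : 0 < C) (hS : 0 < S) : Sq x y C S ⊆
    Ioo (x - (C + S) / 2) (x + (C + S) / 2) ×ˢ Ioo (y - (C + S) / 2) (y + (C + S) / 2) := by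
  rintro ⟨a, b⟩ h
  obtain ⟨⟨h1, h2⟩, ⟨h3, h4⟩, -⟩ := sq_ch hC hS h rfl rfl
  exact ⟨⟨by linarith, by linarith⟩, by linarith, by linarith⟩

theorem sq_fin {x y C S : ℝ} (hC : 0 < C) (hS : 0 < S) : volume (Sq x y C S) ≠ ⊤ := by
  refine ne_top_of_le_ne_top ?_ (measure_mono (sq_sub hC hS))
  rw [Measure.volume_eq_prod, Measure.prod_prod]
  simp [ENNReal.mul_ne_top]

theorem Un.sum_lt {c s : ℝ} (h : Un c s) : c + s < 283 / 200 := by
  obtain ⟨h1, h2, h3⟩ := h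
  nlinarith [sq_nonneg (c - s)]

theorem ar_nonneg (E : Set (ℝ × ℝ)) : 0 ≤ ar E := measureReal_nonneg

theorem wt_nonneg (E : Set (ℝ × ℝ)) : 0 ≤ Wt E := by
  have := ar_nonneg
  unfold Wt
  exact add_nonneg (add_nonneg (this _) (mul_nonneg (by norm_num) (this _)))
    (mul_nonneg (by norm_num) (this _))

theorem hs_nonneg (T : Set ℝ) : 0 ≤ hs T := by
  unfold hs
  positivity

theorem hs_mono {T T' : Set ℝ} (h : T ⊆ T') : hs T ≤ hs T' := by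
  have : ∀ e : ℝ, volume.real (T ∩ Icc 0 e) ≤ volume.real (T' ∩ Icc 0 e) := fun e =>
    measureReal_mono (inter_subset_inter_left _ h)
      (ne_top_of_le_ne_top (by simp) (measure_mono inter_subset_right))
  unfold hs
  linarith [this (9 / 25), this (33 / 50)]

theorem hs_empty : hs ∅ = 0 := by simp [hs]

theorem cumR_mono {t t' : ℝ} (h : t ≤ t') : cumR t ≤ cumR t' := by
  have h1 : pos t ≤ pos t' := max_le_max h le_rfl
  unfold cumR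
  linarith [min_le_min_right (9 / 25) h1, min_le_min_right (33 / 50) h1]

theorem hs_le {T : Set ℝ} {l r : ℝ} (h : T ⊆ Icc l r) : hs T ≤ pos (cumR r - cumR l) := by
  refine (hs_mono h).trans ?_
  rcases le_total l r with hl | hl
  · have : ∀ e : ℝ, 0 ≤ e → volume.real (Icc l r ∩ Icc 0 e) ≤ min (pos r) e - min (pos l) e := by
      intro e he
      rw [Icc_inter_Icc, Real.volume_real_Icc]
      simp only [pos, max_def, min_def]
      split_ifs <;> linarith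
    refine le_trans ?_ (le_max_left _ _)
    unfold hs cumR
    linarith [this (9 / 25) (by norm_num), this (33 / 50) (by norm_num)]
  · have : ∀ e : ℝ, volume.real (Icc l r ∩ Icc 0 e) ≤ 0 := fun e =>
      (measureReal_mono inter_subset_left (by simp)).trans (by simp [hl])
    refine le_trans ?_ (le_max_right _ _)
    unfold hs
    linarith [this (9 / 25), this (33 / 50)]

/-- Pointwise inequalities between weighted sets can be integrated. -/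
theorem lin {k : ℕ} (w : Fin k → ℝ) (E : Fin k → Set (ℝ × ℝ)) (hm : ∀ i, MeasurableSet (E i))
    (hf : ∀ i, volume (E i) ≠ ⊤) (h : ∀ z, 0 ≤ ∑ i, w i * (E i).indicator 1 z) :
    0 ≤ ∑ i, w i * ar (E i) := by
  have h1 : ∀ i, Integrable ((E i).indicator (1 : ℝ × ℝ → ℝ)) := fun i =>
    (integrable_indicator_iff (hm i)).2 (integrableOn_const (hf i))
  have h2 : 0 ≤ ∫ z, ∑ i, w i * (E i).indicator 1 z := integral_nonneg h
  rw [integral_finsetSum _ fun i _ => (h1 i).const_mul _] at h2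
  simpa only [integral_const_mul, integral_indicator_one (hm _), ar] using h2

/-- The area in a quadrant. -/
def AreaS : Prop := ∀ x y C S a b : ℝ, 0 < C → 0 < S →
  2 * C * S * ar (Sq x y C S ∩ Ioi a ×ˢ Ioi b) =
    Pn C S (a - x + (C + S) / 2) (b - y + (C + S) / 2)

/-- The area in a half plane. -/
def HalfS : Prop := ∀ x y C S a : ℝ, 0 < C → 0 < S → ar (Sq x y C S) = C ^ 2 + S ^ 2 ∧
  2 * C * S * ar (Sq x y C S ∩ Ioi a ×ˢ univ) =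
    (C ^ 2 + S ^ 2) * (2 * C * S - Gn C S (a - x + (C + S) / 2)) ∧
  2 * C * S * ar (Sq x y C S ∩ univ ×ˢ Ioi a) =
    (C ^ 2 + S ^ 2) * (2 * C * S - Gn C S (a - y + (C + S) / 2)) ∧
  2 * C * S * ar (Sq x y C S ∩ Iic a ×ˢ univ) = (C ^ 2 + S ^ 2) * Gn C S (a - x + (C + S) / 2) ∧
  2 * C * S * ar (Sq x y C S ∩ univ ×ˢ Iic a) = (C ^ 2 + S ^ 2) * Gn C S (a - y + (C + S) / 2) ∧
  ∀ b, a ≤ b → 2 * C * S * ar (Sq x y C S ∩ Ioc a b ×ˢ univ) =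
      (C ^ 2 + S ^ 2) * (Gn C S (b - x + (C + S) / 2) - Gn C S (a - x + (C + S) / 2)) ∧
    2 * C * S * ar (Sq x y C S ∩ univ ×ˢ Ioc a b) =
      (C ^ 2 + S ^ 2) * (Gn C S (b - y + (C + S) / 2) - Gn C S (a - y + (C + S) / 2))

/-- The total mass is at most the sum of the masses of the squares. -/
def CountS : Prop := ∀ (n N : ℕ) (x y c s : Fin N → ℝ), 2 ≤ n → (∀ i, Un (c i) (s i)) →
  (∀ a ∈ Icc (0 : ℝ) n, ∀ b ∈ Icc (0 : ℝ) n, ∃ i, (a, b) ∈ Sq (x i) (y i) (c i) (s i)) →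
  (n : ℝ) ^ 2 + 4 * (627 / 2500) ≤ ∑ i, mu n (x i) (y i) (c i) (s i)

/-- The reduction to the corner. -/
def SymS : Prop := (∀ x y c s, Un c s → s ≤ c → QI x y c s) →
  ∀ (n : ℕ) (x y c s : ℝ), 3 ≤ n → Un c s → mu n x y c s ≤ 1

/-- Open squares with a positive angle cover the square of side `n`. -/
def RedS : Prop := ∀ (n N : ℕ) (ε : ℝ) (a ω : Fin N → ℂ), 1 ≤ n → 0 < ε → (∀ k, ‖ω k‖ = 1) →
  (∀ x ∈ Icc (0 : ℝ) (n + ε), ∀ y ∈ Icc (0 : ℝ) (n + ε), ∃ k, ∃ s ∈ Icc (0 : ℝ) 1,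
    ∃ t ∈ Icc (0 : ℝ) 1, (x : ℂ) + y * Complex.I = a k + ω k * (s + t * Complex.I)) →
  ∃ x y c s : Fin N → ℝ, (∀ i, Un (c i) (s i)) ∧
    ∀ a ∈ Icc (0 : ℝ) n, ∀ b ∈ Icc (0 : ℝ) n, ∃ i, (a, b) ∈ Sq (x i) (y i) (c i) (s i)

/-- A bounded set of centres suffices. -/
def ShiftS : Prop := ∀ c s, Un c s →
  (∀ x y, -1 ≤ x → x ≤ 13 / 5 → -1 ≤ y → y ≤ 13 / 5 → QI x y c s) → ∀ x y, QI x y c s

/-- The room in a half plane. -/
noncomputable def Rm (c s x : ℝ) : ℝ :=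
  (11 / 25 * (Gn c s (17 / 20 - x) - Gn c s (7 / 25 - x)) + Gn c s (-x) / 2) / (2 * c * s)

/-- The inequalities for small angles. -/
def SmallA : Prop := ∀ c s x : ℝ, Un c s → 50 * s ≤ 7 * c →
  cumR (x + c + s) - cumR x ≤ Rm c s x ∧ ∀ v, 0 < v → v + 1 < c + s →
    cumR (x + s + v * c / s) - cumR (x + (c - v) * s / c) +
      (cumR (x + c + s) - cumR (x + (v + 1 - c) * c / s)) ≤ Rm c s x

/-- The segments that a square with a small angle meets. -/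
def SmallB : Prop := ∀ (c s x y : ℝ) (m : ℕ), Un c s → 50 * s ≤ 7 * c →
  ls (Sq x y c s) m ≤ Rm c s (x - (c + s) / 2) ∧ ls (Sq x y s c) m ≤ Rm c s (x - (c + s) / 2)

/-- Small angles. -/
def SmallS : Prop := ∀ c s x y : ℝ, Un c s → 50 * s ≤ 7 * c → QI x y c s

/-- The room, measured with a smaller set. -/
def BoxS : Prop := ∀ (E K : Set (ℝ × ℝ)) (a b p₁ q₁ p₂ q₂ : ℝ), MeasurableSet E → MeasurableSet K →
  volume E ≠ ⊤ → K ⊆ E → a ≤ 0 → b ≤ 0 → p₁ ≤ 7 / 25 → p₂ ≤ 7 / 25 → 17 / 20 ≤ q₁ → 17 / 20 ≤ q₂ →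
  11 / 25 * ar (E ∩ St ×ˢ univ) + 11 / 25 * ar (E ∩ univ ×ˢ St) ≤ Wt E ∧
  11 / 25 * ar (E ∩ St ×ˢ univ) + 11 / 25 * ar (E ∩ univ ×ˢ St) + ar (E ∩ Iic 0 ×ˢ univ) / 2 +
    ar (E ∩ univ ×ˢ Iic 0) / 2 ≤ Wt E ∧
  11 / 25 * ar (E ∩ St ×ˢ univ) + 11 / 25 * ar (E ∩ univ ×ˢ St) + ar K +
      11 / 25 * (ar (K ∩ Ioi a ×ˢ Ioi p₂) + ar (K ∩ Ioi p₁ ×ˢ Ioi b)) ≤
    Wt E + ar (K ∩ Ioi a ×ˢ Ioi b) + 11 / 25 * (ar (K ∩ univ ×ˢ Ioc p₂ q₂) +
      ar (K ∩ Ioc p₁ q₁ ×ˢ univ) + ar (K ∩ Ioi a ×ˢ Ioi q₂) + ar (K ∩ Ioi q₁ ×ˢ Ioi b))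

/-- The test of one range of angles. -/
def slab (t0 t1 C S Cu Su fl : ℕ) : Bool :=
  decide (0 < S ∧ S ≤ C ∧ 0 < Su ∧ Su ≤ Cu ∧ t1 ≤ 4000 ∧ 12800 ≤ C + S ∧
    Cu ^ 2 + Su ^ 2 ≤ 12800 * (Cu + Su) ∧
    (4000 * (C - S) + t0 * (C + S)) ^ 2 ≤ 12800 ^ 2 * (4000 ^ 2 + t0 ^ 2) ∧
    (4000 * (C - S) + t1 * (C + S)) ^ 2 ≤ 12800 ^ 2 * (4000 ^ 2 + t1 ^ 2) ∧
    (4000 * (C + S) - t0 * (C - S)) ^ 2 ≤ 12800 ^ 2 * (4000 ^ 2 + t0 ^ 2) ∧
    12800 ^ 2 * (4000 * (Cu - Su) + t0 * (Cu + Su)) ^ 2 ≤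
      (Cu ^ 2 + Su ^ 2) ^ 2 * (4000 ^ 2 + t0 ^ 2) ∧
    12800 ^ 2 * (4000 * (Cu - Su) + t1 * (Cu + Su)) ^ 2 ≤
      (Cu ^ 2 + Su ^ 2) ^ 2 * (4000 ^ 2 + t1 ^ 2) ∧
    12800 ^ 2 * (4000 * (Cu + Su) - t0 * (Cu - Su)) ^ 2 ≤
      (Cu ^ 2 + Su ^ 2) ^ 2 * (4000 ^ 2 + t0 ^ 2) ∧
    (2 * fl) ^ 2 * (4000 ^ 2 + t1 ^ 2) ≤ 12800 ^ 2 * (4000 - t1) ^ 2)

/-- The unit square lies between two fixed squares. -/
def Btw (C S Cu Su fl : ℕ) (c s : ℝ) : Prop :=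
  0 < C ∧ 0 < S ∧ 0 < Cu ∧ 0 < Su ∧ 2 * (fl : ℝ) / 12800 ≤ c - s ∧ ∀ x y : ℝ,
    Sq x y (C / 12800) (S / 12800) ⊆ Sq x y c s ∧ Sq x y c s ⊆ Sq x y (Cu / 12800) (Su / 12800)

/-- The test of a range of angles is sound. -/
def SlabS : Prop := ∀ (t0 t1 C S Cu Su fl : ℕ) (c s : ℝ), slab t0 t1 C S Cu Su fl = true →
  Un c s → t0 * c ≤ 4000 * s → 4000 * s ≤ t1 * c → Btw C S Cu Su fl c s

/-- The coordinate lies in the box. -/
def Bx (x0 x1 : ℕ) (x : ℝ) : Prop :=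
  (x0 : ℝ) ≤ 12800 * (x + 1) ∧ 12800 * (x + 1) ≤ x1 ∧ x ≤ 13 / 5

/-- One segment, in integers. -/
def NatA : Prop := ∀ (C S h v0 v1 x0 x1 : ℕ) (x y w : ℝ) (T : Set ℝ), 0 < C → 0 < S →
  2 * h = C + S → Bx x0 x1 x → (∀ t ∈ T, (t, w) ∈ Sq x y (C / 12800) (S / 12800)) →
  (v0 : ℝ) ≤ pos (12800 * (w - y) + h) → 12800 * (w - y) + h ≤ v1 →
  500 * 12800 * hs T ≤ lm C S (C + S) (h + 12800) v0 v1 x0 x1

/-- All segments, in integers. -/
def NatL : Prop := ∀ (C S h x0 x1 y0 y1 m : ℕ) (x y c s : ℝ), 0 < C → 0 < S → 2 * h = C + S →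
  Un c s → Sq x y c s ⊆ Sq x y (C / 12800) (S / 12800) → Bx x0 x1 x → Bx y0 y1 y →
  500 * 12800 * (ls (Sq x y c s) m + ls (Sq y x s c) m) ≤
    (((ms C S (C + S) h (h + 12800) x0 x1 y0 y1 12800).add
      (ms C S (C + S) h (h + 12800) x0 x1 y0 y1 25600)).add
    ((ms C S (C + S) h (h + 12800) x0 x1 y0 y1 38400).add
      (ms C S (C + S) h (h + 12800) x0 x1 y0 y1 51200)) : ℕ)

/-- The areas, in integers. -/
def NatP : Prop := ∀ (C S a b : ℕ) (u v : ℝ), 0 < C → 0 < S → (a : ℝ) = pos (12800 * u) →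
  (b : ℝ) = pos (12800 * v) →
  (pq C S (C + S) a b : ℝ) = 12800 ^ 4 * Pn (C / 12800) (S / 12800) u v ∧
  (gq C S (C + S) a : ℝ) = 12800 ^ 2 * Gn (C / 12800) (S / 12800) u

/-- The strips, in integers. -/
def NatV : Prop := ∀ (C S Cu Su fl h x0 x1 : ℕ) (x y c s : ℝ), Un c s → Btw C S Cu Su fl c s →
  2 * h = C + S → Bx x0 x1 x →
  (vv C S (C + S) h (C * C + S * S) (2 * C * S * 12800) fl x0 x1 : ℝ) ≤
      220 * 12800 ^ 2 * (2 * C * S) * ar (Sq x y c s ∩ St ×ˢ univ) ∧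
  (vv C S (C + S) h (C * C + S * S) (2 * C * S * 12800) fl x0 x1 : ℝ) ≤
      220 * 12800 ^ 2 * (2 * C * S) * ar (Sq y x c s ∩ univ ×ˢ St)

/-- The test of one box is sound. -/
def NatS : Prop := ∀ (C S Cu Su fl h hu x0 x1 y0 y1 : ℕ) (x y c s : ℝ), Un c s →
  Btw C S Cu Su fl c s → 2 * h = C + S → 2 * hu = Cu + Su → Bx x0 x1 x → Bx y0 y1 y →
  ok C S (C + S) h (C * C + S * S) (2 * C * S * 12800) Cu Su (Cu + Su) hu (hu + 12800) fl
    x0 x1 y0 y1 = true → QI x y c s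

theorem sv_eq {β : Type} (a : ℕ) (k : ℕ → β) : sv a k = k a := by cases a <;> rfl

end Pool.Agent.MP_c59ecb_co.al
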